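import Mathlib

set_option autoImplicit false
open MeasureTheory Filter

/-!
Job H443-4 (helper443, MP_3013d0_nt): the second Borel-Cantelli lemma for pairwise independent events.
-/

namespace Pool.Agent.TH443.MJ

namespace H266BC

variable {Ω : Type*} [MeasurableSpace Ω] (μ : Measure Ω) [IsProbabilityMeasure μ] {ι : Type*} (A : ι → Set Ω)

lemma second_moment (hA : ∀ i, MeasurableSet (A i))
    (hind : ∀ i j, i ≠ j → μ (A i ∩ A j) = μ (A i) * μ (A j)) (F : Finset ι) :
    ∫ ω, ((∑ i ∈ F, (A i).indicator (fun _ => (1:ℝ)) ω) - ∑ i ∈ F, μ.real (A i)) ^ 2 ∂μ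
      ≤ ∑ i ∈ F, μ.real (A i) := by
  classical
  set M := ∑ i ∈ F, μ.real (A i) with hM
  have hint : ∀ i j, Integrable (fun ω => (A i).indicator (fun _ => (1:ℝ)) ω * (A j).indicator (fun _ => (1:ℝ)) ω) μ := by
    intro i j
    have : (fun ω => (A i).indicator (fun _ => (1:ℝ)) ω * (A j).indicator (fun _ => (1:ℝ)) ω)
        = (A i ∩ A j).indicator (fun _ => (1:ℝ)) := by
      funext ω
      by_cases h1 : ω ∈ A i <;> by_cases h2 : ω ∈ A j <;> simp [h1, h2]
    rw [this]
    exact (integrable_const _).indicator ((hA i).inter (hA j))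
  have hint1 : ∀ i, Integrable (fun ω => (A i).indicator (fun _ => (1:ℝ)) ω) μ := fun i =>
    (integrable_const _).indicator (hA i)
  have hval : ∀ i j, ∫ ω, (A i).indicator (fun _ => (1:ℝ)) ω * (A j).indicator (fun _ => (1:ℝ)) ω ∂μ = μ.real (A i ∩ A j) := by
    intro i j
    have : (fun ω => (A i).indicator (fun _ => (1:ℝ)) ω * (A j).indicator (fun _ => (1:ℝ)) ω)
        = (A i ∩ A j).indicator (fun _ => (1:ℝ)) := by
      funext ω
      by_cases h1 : ω ∈ A i <;> by_cases h2 : ω ∈ A j <;> simp [h1, h2]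
    rw [this, integral_indicator ((hA i).inter (hA j))]
    simp
  have hval1 : ∀ i, ∫ ω, (A i).indicator (fun _ => (1:ℝ)) ω ∂μ = μ.real (A i) := by
    intro i
    rw [integral_indicator (hA i)]; simp
  have h1 : ∀ ω, ((∑ i ∈ F, (A i).indicator (fun _ => (1:ℝ)) ω) - M) ^ 2
      = (∑ i ∈ F, ∑ j ∈ F, (A i).indicator (fun _ => (1:ℝ)) ω * (A j).indicator (fun _ => (1:ℝ)) ω)
        - 2 * M * (∑ i ∈ F, (A i).indicator (fun _ => (1:ℝ)) ω) + M ^ 2 := by
    intro ω
    rw [← Finset.sum_mul_sum]; ring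
  have hI1 : Integrable (fun ω => ∑ i ∈ F, ∑ j ∈ F, (A i).indicator (fun _ => (1:ℝ)) ω * (A j).indicator (fun _ => (1:ℝ)) ω) μ :=
    integrable_finset_sum _ fun i _ => integrable_finset_sum _ fun j _ => hint i j
  have hI2 : Integrable (fun ω => 2 * M * (∑ i ∈ F, (A i).indicator (fun _ => (1:ℝ)) ω)) μ :=
    (integrable_finset_sum _ fun i _ => hint1 i).const_mul _
  simp_rw [h1]
  have hI12 : Integrable (fun ω => (∑ i ∈ F, ∑ j ∈ F, (A i).indicator (fun _ => (1:ℝ)) ω * (A j).indicator (fun _ => (1:ℝ)) ω) - 2 * M * (∑ i ∈ F, (A i).indicator (fun _ => (1:ℝ)) ω)) μ := hI1.sub hI2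
  rw [integral_add hI12 (integrable_const _), integral_sub hI1 hI2, integral_const_mul,
    integral_finset_sum _ (fun i _ => integrable_finset_sum _ fun j _ => hint i j),
    integral_finset_sum _ (fun i _ => hint1 i)]
  simp_rw [integral_finset_sum F (fun j _ => hint _ j), hval, hval1]
  rw [← hM]
  have h2 : ∑ i ∈ F, ∑ j ∈ F, μ.real (A i ∩ A j) ≤ M ^ 2 + M := by
    have h3 : ∀ i ∈ F, ∑ j ∈ F, μ.real (A i ∩ A j) ≤ μ.real (A i) * M + μ.real (A i) := by
      intro i hi
      have h4 : ∀ j ∈ F, μ.real (A i ∩ A j) ≤ μ.real (A i) * μ.real (A j) + if i = j then μ.real (A i) else 0 := by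
        intro j _
        by_cases hij : i = j
        · subst hij
          simp only [Set.inter_self, if_true]
          have : 0 ≤ μ.real (A i) * μ.real (A i) := by positivity
          linarith
        · rw [if_neg hij, add_zero]
          have := hind i j hij
          simp only [Measure.real, this, ENNReal.toReal_mul, le_refl]
      refine (Finset.sum_le_sum h4).trans ?_
      rw [Finset.sum_add_distrib, ← Finset.mul_sum, Finset.sum_ite_eq, if_pos hi]
    refine (Finset.sum_le_sum h3).trans ?_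
    rw [Finset.sum_add_distrib, ← Finset.sum_mul, ← hM]
    linarith [sq M]
  have h5 : ∫ (_ : Ω), M ^ 2 ∂μ = M ^ 2 := by simp
  rw [h5]
  nlinarith

lemma cheb (hA : ∀ i, MeasurableSet (A i))
    (hind : ∀ i j, i ≠ j → μ (A i ∩ A j) = μ (A i) * μ (A j)) (F : Finset ι)
    (hpos : 0 < ∑ i ∈ F, μ.real (A i)) (Z : Set Ω)
    (hZ : ∀ ω ∈ Z, (∑ i ∈ F, (A i).indicator (fun _ => (1:ℝ)) ω) ≤ (∑ i ∈ F, μ.real (A i)) / 2) :
    μ.real Z ≤ 4 / ∑ i ∈ F, μ.real (A i) := by
  set M := ∑ i ∈ F, μ.real (A i) with hM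
  have h1 := second_moment μ A hA hind F
  rw [← hM] at h1
  have hint : Integrable (fun ω => ((∑ i ∈ F, (A i).indicator (fun _ => (1:ℝ)) ω) - M) ^ 2) μ := by
    have hm : Measurable (fun ω => ((∑ i ∈ F, (A i).indicator (fun _ => (1:ℝ)) ω) - M) ^ 2) := by
      apply Measurable.pow_const
      apply Measurable.sub_const
      exact Finset.measurable_sum _ fun i _ => measurable_const.indicator (hA i)
    apply Integrable.of_bound hm.aestronglyMeasurable ((F.card + |M|)^2)
    filter_upwards with ω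
    rw [Real.norm_eq_abs, abs_pow]
    apply pow_le_pow_left₀ (abs_nonneg _)
    refine (abs_sub _ _).trans ?_
    gcongr
    refine (Finset.abs_sum_le_sum_abs _ _).trans ?_
    calc ∑ i ∈ F, |(A i).indicator (fun _ => (1:ℝ)) ω| ≤ ∑ i ∈ F, (1:ℝ) := by
          apply Finset.sum_le_sum; intro i _
          by_cases h : ω ∈ A i <;> simp [h]
      _ = F.card := by simp
  have h2 := mul_meas_ge_le_integral_of_nonneg (μ := μ) (f := fun ω => ((∑ i ∈ F, (A i).indicator (fun _ => (1:ℝ)) ω) - M) ^ 2)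
    (Eventually.of_forall fun ω => by positivity) hint ((M/2)^2)
  have h3 : Z ⊆ {ω | (M/2)^2 ≤ ((∑ i ∈ F, (A i).indicator (fun _ => (1:ℝ)) ω) - M) ^ 2} := by
    intro ω hω
    have := hZ ω hω
    rw [Set.mem_setOf_eq]
    nlinarith
  have h4 : μ.real Z ≤ μ.real {ω | (M/2)^2 ≤ ((∑ i ∈ F, (A i).indicator (fun _ => (1:ℝ)) ω) - M) ^ 2} :=
    measureReal_mono h3
  have h5 : (M/2)^2 * μ.real Z ≤ M := by
    calc (M/2)^2 * μ.real Z ≤ (M/2)^2 * μ.real {ω | (M/2)^2 ≤ ((∑ i ∈ F, (A i).indicator (fun _ => (1:ℝ)) ω) - M) ^ 2} := by gcongr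
      _ ≤ _ := h2.trans h1
  rw [le_div_iff₀ hpos]
  have h6 : M * (μ.real Z * M) ≤ M * 4 := by nlinarith
  exact le_of_mul_le_mul_left h6 hpos

end H266BC

theorem bc_pairwise {Ω : Type*} [MeasurableSpace Ω] (μ : Measure Ω) [IsProbabilityMeasure μ]
    {ι : Type*} [Countable ι] (A : ι → Set Ω) (hA : ∀ i, MeasurableSet (A i))
    (hind : ∀ i j, i ≠ j → μ (A i ∩ A j) = μ (A i) * μ (A j))
    (hsum : ∑' i, μ (A i) = ⊤) : ∀ᵐ ω ∂μ, {i | ω ∈ A i}.Infinite := by
  classical
  have key : ∀ n : ℕ, μ {ω | {i | ω ∈ A i}.Finite ∧ {i | ω ∈ A i}.ncard ≤ n} = 0 := by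
    intro n
    have h1 : ∀ ε : ℝ, 0 < ε → μ.real {ω | {i | ω ∈ A i}.Finite ∧ {i | ω ∈ A i}.ncard ≤ n} ≤ ε := by
      intro ε hε
      set K : ℝ := max (2 * n) (max 1 (4 / ε)) with hK
      have hK1 : 1 ≤ K := (le_max_left _ _).trans (le_max_right _ _)
      have hK2 : 2 * (n:ℝ) ≤ K := le_max_left _ _
      have hK3 : 4 / ε ≤ K := (le_max_right _ _).trans (le_max_right _ _)
      have h2 : ENNReal.ofReal K < ∑' i, μ (A i) := by rw [hsum]; exact ENNReal.ofReal_lt_top
      rw [ENNReal.tsum_eq_iSup_sum, lt_iSup_iff] at h2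
      obtain ⟨F, hF⟩ := h2
      have h3 : K < ∑ i ∈ F, μ.real (A i) := by
        have h4 : ∑ i ∈ F, μ (A i) = ENNReal.ofReal (∑ i ∈ F, μ.real (A i)) := by
          rw [ENNReal.ofReal_sum_of_nonneg (fun i _ => measureReal_nonneg)]
          apply Finset.sum_congr rfl; intro i _
          rw [ofReal_measureReal]
        rw [h4] at hF
        exact (ENNReal.ofReal_lt_ofReal_iff_of_nonneg (by linarith)).1 hF
      have h5 := H266BC.cheb μ A hA hind F (by linarith)
        {ω | {i | ω ∈ A i}.Finite ∧ {i | ω ∈ A i}.ncard ≤ n} (by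
          rintro ω ⟨hfin, hcard⟩
          have h6 : (∑ i ∈ F, (A i).indicator (fun _ => (1:ℝ)) ω) = ((F.filter (fun i => ω ∈ A i)).card : ℝ) := by
            rw [Finset.card_filter]
            push_cast
            apply Finset.sum_congr rfl; intro i _
            by_cases h : ω ∈ A i <;> simp [h]
          have h7 : (F.filter (fun i => ω ∈ A i)).card ≤ n := by
            refine le_trans ?_ hcard
            rw [← Set.ncard_coe_finset]
            apply Set.ncard_le_ncard _ hfin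
            intro i hi
            simp only [Finset.coe_filter, Set.mem_setOf_eq] at hi
            exact hi.2
          rw [h6]
          have h8 : ((F.filter (fun i => ω ∈ A i)).card : ℝ) ≤ n := by exact_mod_cast h7
          linarith)
      refine h5.trans ?_
      rw [div_le_iff₀ (by linarith)]
      have : 4 ≤ ε * K := by
        rw [div_le_iff₀ hε] at hK3
        linarith
      nlinarith
    have h2 : μ.real {ω | {i | ω ∈ A i}.Finite ∧ {i | ω ∈ A i}.ncard ≤ n} ≤ 0 := by
      by_contra h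
      push Not at h
      have := h1 _ (half_pos h)
      linarith
    have h3 := le_antisymm h2 measureReal_nonneg
    rwa [measureReal_eq_zero_iff] at h3
  have h4 : μ (⋃ n : ℕ, {ω | {i | ω ∈ A i}.Finite ∧ {i | ω ∈ A i}.ncard ≤ n}) = 0 := measure_iUnion_null key
  rw [ae_iff]
  refine measure_mono_null ?_ h4
  intro ω hω
  simp only [Set.mem_setOf_eq, Set.not_infinite] at hω
  simp only [Set.mem_iUnion, Set.mem_setOf_eq]
  exact ⟨_, hω, le_rfl⟩

end Pool.Agent.TH443.MJ
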