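import Mathlib

set_option autoImplicit false
open MeasureTheory Filter

/-!
Job H443-5 (helper443, MP_3013d0_nt): divergence of the sum over primitive integer vectors.
-/

namespace Pool.Agent.TH443.MJ

namespace H266P

open Finset

lemma sum_dvd (N d : ℕ) (hd : 1 ≤ d) (φ : ℕ → ℝ) :
    ∑ m ∈ Icc 1 N, (if d ∣ m then φ m else 0) = ∑ a ∈ Icc 1 (N / d), φ (d * a) := by
  rw [← Finset.sum_filter]
  symm
  apply Finset.sum_bij (fun k _ => d * k)
  · intro k hk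
    simp only [mem_Icc, mem_filter] at hk ⊢
    refine ⟨⟨Nat.mul_pos hd hk.1, ?_⟩, dvd_mul_right _ _⟩
    exact (Nat.mul_le_mul_left _ hk.2).trans (Nat.mul_div_le _ _)
  · intro a _ b _ h
    exact Nat.eq_of_mul_eq_mul_left (by omega) h
  · intro m hm
    simp only [mem_filter, mem_Icc] at hm
    obtain ⟨⟨h1, h2⟩, k, rfl⟩ := hm
    refine ⟨k, ?_, rfl⟩
    simp only [mem_Icc]
    refine ⟨Nat.pos_of_ne_zero (by rintro rfl; simp at h1), ?_⟩
    exact (Nat.le_div_iff_mul_le (by omega)).2 (by linarith [mul_comm d k])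
  · intro k _; rfl

/-- the average of `φ(n)/n` is at least `1/2` -/
lemma tot_avg (X : ℕ) : ((X:ℝ)) / 2 ≤ ∑ n ∈ Icc 1 X, (n.totient : ℝ) / n := by
  rcases Nat.eq_zero_or_pos X with h0 | hX
  · subst h0; simp
  have hX0 : (0:ℝ) < X := by exact_mod_cast hX
  have h1 : ∑ n ∈ Icc 1 X, (n:ℝ) = (X:ℝ) * (X + 1) / 2 := by
    clear hX hX0
    induction X with
    | zero => simp
    | succ X ih => rw [Finset.sum_Icc_succ_top (by omega), ih]; push_cast; ring
  have h2 : ∑ n ∈ Icc 1 X, (n:ℝ) = ∑ d ∈ Icc 1 X, (d.totient : ℝ) * ((X / d : ℕ) : ℝ) := by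
    have h3 : ∀ n ∈ Icc 1 X, (n:ℝ) = ∑ d ∈ Icc 1 X, if d ∣ n then (d.totient : ℝ) else 0 := by
      intro n hn
      simp only [mem_Icc] at hn
      rw [← Finset.sum_filter]
      have : (Icc 1 X).filter (fun d => d ∣ n) = n.divisors := by
        ext d
        simp only [mem_filter, mem_Icc, Nat.mem_divisors]
        constructor
        · rintro ⟨-, h⟩; exact ⟨h, by omega⟩
        · rintro ⟨h, -⟩
          exact ⟨⟨Nat.pos_of_dvd_of_pos h (by omega), (Nat.le_of_dvd (by omega) h).trans hn.2⟩, h⟩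
      rw [this]
      exact_mod_cast (Nat.sum_totient n).symm
    rw [Finset.sum_congr rfl h3, Finset.sum_comm]
    apply Finset.sum_congr rfl; intro d hd
    simp only [mem_Icc] at hd
    rw [sum_dvd X d hd.1 (fun _ => (d.totient : ℝ))]
    simp [mul_comm]
  have h4 : ∑ d ∈ Icc 1 X, (d.totient : ℝ) * ((X / d : ℕ) : ℝ) ≤ (∑ n ∈ Icc 1 X, (n.totient : ℝ) / n) * X := by
    rw [Finset.sum_mul]
    apply Finset.sum_le_sum; intro d hd
    have : ((X / d : ℕ) : ℝ) ≤ (X:ℝ) / d := Nat.cast_div_le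
    calc (d.totient : ℝ) * ((X / d : ℕ) : ℝ) ≤ (d.totient : ℝ) * ((X:ℝ) / d) := by gcongr
      _ = _ := by ring
  rw [← h2, h1] at h4
  have h5 : (X:ℝ) / 2 * X ≤ (∑ n ∈ Icc 1 X, (n.totient : ℝ) / n) * X := by nlinarith
  exact le_of_mul_le_mul_right h5 hX0

lemma tot_block (j : ℕ) : (4:ℝ) ^ j ≤ ∑ n ∈ (Ioc (4 ^ j) (4 ^ (j+1)) : Finset ℕ), (n.totient : ℝ) / n := by
  have h1 := tot_avg (4 ^ (j+1))
  have h2 : ∑ n ∈ (Icc 1 (4 ^ (j+1)) : Finset ℕ), (n.totient : ℝ) / n =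
      ∑ n ∈ (Icc 1 (4 ^ j) : Finset ℕ), (n.totient : ℝ) / n + ∑ n ∈ (Ioc (4 ^ j) (4 ^ (j+1)) : Finset ℕ), (n.totient : ℝ) / n := by
    rw [← Finset.sum_union]
    · congr 1
      ext x; simp only [mem_Icc, mem_union, mem_Ioc]
      have h3 : 4 ^ j ≤ 4 ^ (j+1) := Nat.pow_le_pow_right (by norm_num) (by omega)
      have h4 : 1 ≤ 4 ^ j := Nat.one_le_pow _ _ (by norm_num)
      omega
    · rw [Finset.disjoint_left]; intro x hx hy; simp only [mem_Icc, mem_Ioc] at hx hy; omega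
  have h3 : ∑ n ∈ (Icc 1 (4 ^ j) : Finset ℕ), (n.totient : ℝ) / n ≤ (4:ℝ) ^ j := by
    calc ∑ n ∈ (Icc 1 (4 ^ j) : Finset ℕ), (n.totient : ℝ) / n ≤ ∑ n ∈ (Icc 1 (4 ^ j) : Finset ℕ), (1:ℝ) := by
          apply Finset.sum_le_sum; intro n hn
          simp only [mem_Icc] at hn
          have : (0:ℝ) < n := by exact_mod_cast hn.1
          rw [div_le_one this]
          exact_mod_cast Nat.totient_le n
      _ = _ := by simp
  rw [h2] at h1
  have h5 : (((4 ^ (j+1) : ℕ)) : ℝ) = 4 * (4:ℝ) ^ j := by push_cast; ring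
  rw [h5] at h1
  linarith

section emb
variable (k : ℕ)

abbrev TT := Σ n : ℕ, (ZMod (n+1))ˣ × (Fin k → Fin (n+1))

abbrev II := {q : Fin (k + 2) → ℤ // 0 < q 0 ∧ (∀ j, |q j| ≤ q 0) ∧
        ∀ g : ℤ, (∀ j, g ∣ q j) → IsUnit g}

def vec (t : TT k) : Fin (k + 2) → ℤ :=
  Fin.cons ((t.1 + 1 : ℕ) : ℤ) (Fin.cons (((t.2.1 : ZMod (t.1+1)).val : ℕ) : ℤ) (fun i => ((t.2.2 i : ℕ) : ℤ)))

lemma vec_zero (t : TT k) : vec k t 0 = ((t.1 + 1 : ℕ) : ℤ) := rfl

lemma vec_one (t : TT k) : vec k t 1 = (((t.2.1 : ZMod (t.1+1)).val : ℕ) : ℤ) := rfl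

lemma vec_succ (t : TT k) (i : Fin k) : vec k t i.succ.succ = ((t.2.2 i : ℕ) : ℤ) := rfl

lemma vec_mem (t : TT k) : 0 < vec k t 0 ∧ (∀ j, |vec k t j| ≤ vec k t 0) ∧
        ∀ g : ℤ, (∀ j, g ∣ vec k t j) → IsUnit g := by
  refine ⟨?_, ?_, ?_⟩
  · rw [vec_zero]; push_cast; omega
  · intro j
    refine Fin.cases ?_ (fun j => Fin.cases ?_ (fun i => ?_) j) j
    · rw [vec_zero]; rw [abs_of_nonneg (by positivity)]
    · have : vec k t (Fin.succ 0) = vec k t 1 := rfl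
      rw [this, vec_one, vec_zero, abs_of_nonneg (by positivity)]
      exact_mod_cast (ZMod.val_lt (t.2.1 : ZMod (t.1+1))).le
    · rw [vec_succ, vec_zero, abs_of_nonneg (by positivity)]
      exact_mod_cast (t.2.2 i).2.le
  · intro g hg
    have h0 := hg 0
    have h1 := hg 1
    rw [vec_zero] at h0
    rw [vec_one] at h1
    have hc : Nat.Coprime ((t.2.1 : ZMod (t.1+1)).val) (t.1+1) := ZMod.val_coe_unit_coprime t.2.1
    have hc2 : IsCoprime (((t.2.1 : ZMod (t.1+1)).val : ℕ) : ℤ) ((t.1+1 : ℕ) : ℤ) := Nat.isCoprime_iff_coprime.2 hc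
    exact hc2.isUnit_of_dvd' h1 h0

def emb (t : TT k) : II k := ⟨vec k t, vec_mem k t⟩

lemma emb_inj : Function.Injective (emb k) := by
  intro s t h
  have h1 : vec k s = vec k t := congrArg Subtype.val h
  obtain ⟨n, u, c⟩ := s
  obtain ⟨m, v, d⟩ := t
  have h0 : n = m := by
    have := congrFun h1 0
    rw [vec_zero, vec_zero] at this
    simp only at this
    have h2 : n + 1 = m + 1 := by exact_mod_cast this
    omega
  subst h0
  have hu : u = v := by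
    have := congrFun h1 1
    rw [vec_one, vec_one] at this
    simp only at this
    apply Units.ext
    apply ZMod.val_injective
    exact_mod_cast this
  have hc : c = d := by
    funext i
    have := congrFun h1 i.succ.succ
    rw [vec_succ, vec_succ] at this
    simp only at this
    apply Fin.ext
    exact_mod_cast this
  rw [hu, hc]

end emb

lemma summable_fibers (k : ℕ) (Φ : ℕ → ℝ)
    (hs : Summable (fun q : II k => min ((q.1 0 : ℝ) * Φ (q.1 0).toNat) (1 / 2))) :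
    Summable (fun n : ℕ => (n.totient : ℝ) * (n:ℝ) ^ k * min ((n:ℝ) * Φ n) (1 / 2)) := by
  rw [← summable_nat_add_iff 1]
  have h1 := (hs.comp_injective (emb_inj k)).sigma
  refine h1.congr ?_
  intro n
  have h2 : ∀ x : (ZMod (n+1))ˣ × (Fin k → Fin (n+1)),
      ((fun q : II k => min ((q.1 0 : ℝ) * Φ (q.1 0).toNat) (1 / 2)) ∘ emb k) ⟨n, x⟩
       = min (((n+1:ℕ):ℝ) * Φ (n+1)) (1/2) := by
    intro x
    show min (((vec k ⟨n, x⟩ 0 : ℤ) : ℝ) * Φ (vec k ⟨n, x⟩ 0).toNat) (1/2) = _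
    rw [vec_zero]
    simp only [Int.toNat_natCast]
    norm_cast
  rw [tsum_congr h2, tsum_fintype, Finset.sum_const, Finset.card_univ, Fintype.card_prod,
    ZMod.card_units_eq_totient, Fintype.card_fun, Fintype.card_fin, Fintype.card_fin, nsmul_eq_mul]
  push_cast
  ring

end H266P

theorem prim_sum (k : ℕ) (Φ : ℕ → ℝ) (h0 : ∀ n, 0 < Φ n) (hm : Antitone Φ)
    (hdiv : ¬ Summable (fun n : ℕ => (n : ℝ) ^ (k + 2) * Φ n)) :
    ¬ Summable (fun q : {q : Fin (k + 2) → ℤ // 0 < q 0 ∧ (∀ j, |q j| ≤ q 0) ∧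
        ∀ g : ℤ, (∀ j, g ∣ q j) → IsUnit g} =>
      min ((q.1 0 : ℝ) * Φ (q.1 0).toNat) (1 / 2)) := by
  intro hs
  apply hdiv
  have hG := H266P.summable_fibers k Φ hs
  set G : ℕ → ℝ := fun n : ℕ => (n.totient : ℝ) * (n:ℝ) ^ k * min ((n:ℝ) * Φ n) (1 / 2) with hGdef
  have hmin0 : ∀ n : ℕ, 0 ≤ min ((n:ℝ) * Φ n) (1 / 2) := fun n =>
    le_min (mul_nonneg (Nat.cast_nonneg n) (h0 n).le) (by norm_num)
  have hG0 : ∀ n, 0 ≤ G n := fun n => by
    have := hmin0 n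
    simp only [hGdef]
    positivity
  -- block sums
  set B : ℕ → ℝ := fun j => ∑ n ∈ (Finset.Ioc (4 ^ j) (4 ^ (j+1)) : Finset ℕ), G n with hB
  have hmono : ∀ j : ℕ, 4 ^ j ≤ 4 ^ (j+1) := fun j => Nat.pow_le_pow_right (by norm_num) (by omega)
  have hBs : Summable B := by
    apply summable_of_sum_range_le (c := ∑' n, G n) (fun j => Finset.sum_nonneg fun n _ => hG0 n)
    intro J
    have h1 : ∑ j ∈ Finset.range J, B j = ∑ n ∈ Finset.Ioc 1 (4 ^ J), G n := by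
      induction J with
      | zero => simp
      | succ J ih =>
        rw [Finset.sum_range_succ, ih, hB]
        exact Finset.sum_Ioc_consecutive _ (Nat.one_le_pow _ _ (by norm_num)) (hmono J)
    rw [h1]
    exact hG.sum_le_tsum _ (fun n _ => hG0 n)
  set D : ℕ → ℝ := fun j => (4:ℝ) ^ j * (4:ℝ) ^ (j * (k+1)) * min ((4:ℝ) ^ j * Φ (4 ^ (j+1))) (1/2) with hD
  have hDm : ∀ j : ℕ, 0 ≤ min ((4:ℝ) ^ j * Φ (4 ^ (j+1))) (1/2) := fun j =>
    le_min (mul_nonneg (by positivity) (h0 _).le) (by norm_num)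
  have hD0 : ∀ j, 0 ≤ D j := fun j => by
    have := hDm j
    simp only [hD]; positivity
  have hDB : ∀ j, D j ≤ B j := by
    intro j
    have h1 := H266P.tot_block j
    calc D j = (4:ℝ) ^ j * ((4:ℝ) ^ (j * (k+1)) * min ((4:ℝ) ^ j * Φ (4 ^ (j+1))) (1/2)) := by simp only [hD]; ring
      _ ≤ (∑ n ∈ (Finset.Ioc (4 ^ j) (4 ^ (j+1)) : Finset ℕ), (n.totient : ℝ) / n) * ((4:ℝ) ^ (j * (k+1)) * min ((4:ℝ) ^ j * Φ (4 ^ (j+1))) (1/2)) := by
          apply mul_le_mul_of_nonneg_right h1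
          have := hDm j
          positivity
      _ = ∑ n ∈ (Finset.Ioc (4 ^ j) (4 ^ (j+1)) : Finset ℕ), (n.totient : ℝ) / n * ((4:ℝ) ^ (j * (k+1)) * min ((4:ℝ) ^ j * Φ (4 ^ (j+1))) (1/2)) := by rw [Finset.sum_mul]
      _ ≤ B j := by
          apply Finset.sum_le_sum; intro n hn
          simp only [Finset.mem_Ioc] at hn
          have hn0 : (0:ℝ) < n := by
            have : 0 < n := lt_of_le_of_lt (Nat.zero_le _) hn.1
            exact_mod_cast this
          have hn1 : (4:ℝ) ^ j ≤ n := by exact_mod_cast hn.1.le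
          have h2 : (4:ℝ) ^ (j * (k+1)) ≤ (n:ℝ) ^ (k+1) := by
            rw [pow_mul]; exact pow_le_pow_left₀ (by positivity) hn1 _
          have h3 : min ((4:ℝ) ^ j * Φ (4 ^ (j+1))) (1/2) ≤ min ((n:ℝ) * Φ n) (1/2) := by
            apply min_le_min _ le_rfl
            exact mul_le_mul hn1 (hm hn.2) (h0 _).le hn0.le
          calc (n.totient : ℝ) / n * ((4:ℝ) ^ (j * (k+1)) * min ((4:ℝ) ^ j * Φ (4 ^ (j+1))) (1/2))
              ≤ (n.totient : ℝ) / n * ((n:ℝ) ^ (k+1) * min ((n:ℝ) * Φ n) (1/2)) := by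
                apply mul_le_mul_of_nonneg_left _ (by positivity)
                exact mul_le_mul h2 h3 (hDm j) (by positivity)
            _ = G n := by
                simp only [hGdef]; rw [pow_succ]; field_simp
  have hDs : Summable D := hBs.of_nonneg_of_le hD0 hDB
  -- terms tend to zero
  have hlim := hDs.tendsto_atTop_zero
  have hev : ∀ᶠ j in atTop, D j < 1/2 := hlim.eventually (gt_mem_nhds (by norm_num))
  have hEs : Summable (fun j : ℕ => (4:ℝ) ^ (j * (k+3)) * Φ (4 ^ (j+1))) := by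
    obtain ⟨J, hJ⟩ := eventually_atTop.1 hev
    rw [← summable_nat_add_iff J]
    have h1 := (summable_nat_add_iff J).2 hDs
    refine h1.congr ?_
    intro j
    have h2 := hJ (j + J) (by omega)
    have h3 : min ((4:ℝ) ^ (j+J) * Φ (4 ^ (j+J+1))) (1/2) = (4:ℝ) ^ (j+J) * Φ (4 ^ (j+J+1)) := by
      apply min_eq_left
      by_contra hc
      push Not at hc
      have h4 : min ((4:ℝ) ^ (j+J) * Φ (4 ^ (j+J+1))) (1/2) = 1/2 := min_eq_right hc.le
      have h5 : D (j + J) = (4:ℝ) ^ (j+J) * (4:ℝ) ^ ((j+J) * (k+1)) * (1/2) := by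
        simp only [hD]; rw [h4]
      rw [h5] at h2
      have h6 : (1:ℝ) ≤ (4:ℝ) ^ (j+J) := one_le_pow₀ (by norm_num)
      have h7 : (1:ℝ) ≤ (4:ℝ) ^ ((j+J) * (k+1)) := one_le_pow₀ (by norm_num)
      nlinarith
    simp only [hD]
    rw [h3]
    have : (j+J) * (k+3) = (j+J) + (j+J)*(k+1) + (j+J) := by ring
    rw [this, pow_add, pow_add]
    ring
  have hE's : Summable (fun j : ℕ => (4:ℝ) ^ (j * (k+3)) * Φ (4 ^ j)) := by
    rw [← summable_nat_add_iff 1]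
    refine (hEs.mul_left ((4:ℝ)^(k+3))).congr ?_
    intro j
    rw [show (j+1) * (k+3) = j * (k+3) + (k+3) by ring, pow_add]
    ring
  -- conclusion
  have hH0 : ∀ n : ℕ, 0 ≤ (n : ℝ) ^ (k + 2) * Φ n := fun n => mul_nonneg (by positivity) (h0 n).le
  apply summable_of_sum_range_le (c := (4:ℝ)^(k+3) * ∑' j : ℕ, (4:ℝ) ^ (j * (k+3)) * Φ (4 ^ j)) hH0
  intro X
  have h1 : ∀ J : ℕ, ∑ n ∈ Finset.range (4 ^ J), (n : ℝ) ^ (k + 2) * Φ n ≤
      (4:ℝ)^(k+3) * ∑ j ∈ Finset.range J, (4:ℝ) ^ (j * (k+3)) * Φ (4 ^ j) := by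
    intro J
    induction J with
    | zero => simp
    | succ J ih =>
      rw [Finset.sum_range_succ, mul_add]
      have h2 : ∑ n ∈ Finset.range (4 ^ (J+1)), (n : ℝ) ^ (k + 2) * Φ n =
          ∑ n ∈ Finset.range (4 ^ J), (n : ℝ) ^ (k + 2) * Φ n + ∑ n ∈ (Finset.Ico (4 ^ J) (4 ^ (J+1)) : Finset ℕ), (n : ℝ) ^ (k + 2) * Φ n := by
        rw [Finset.range_eq_Ico, Finset.range_eq_Ico]
        exact (Finset.sum_Ico_consecutive _ (Nat.zero_le _) (hmono J)).symm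
      rw [h2]
      apply add_le_add ih
      calc ∑ n ∈ (Finset.Ico (4 ^ J) (4 ^ (J+1)) : Finset ℕ), (n : ℝ) ^ (k + 2) * Φ n
          ≤ ∑ n ∈ (Finset.Ico (4 ^ J) (4 ^ (J+1)) : Finset ℕ), ((4:ℝ) ^ (J+1)) ^ (k + 2) * Φ (4 ^ J) := by
            apply Finset.sum_le_sum; intro n hn
            simp only [Finset.mem_Ico] at hn
            have hn1 : (n:ℝ) ≤ (4:ℝ) ^ (J+1) := by exact_mod_cast hn.2.le
            exact mul_le_mul (pow_le_pow_left₀ (Nat.cast_nonneg n) hn1 _) (hm hn.1) (h0 _).le (by positivity)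
        _ = ((4 ^ (J+1) - 4 ^ J : ℕ) : ℝ) * (((4:ℝ) ^ (J+1)) ^ (k + 2) * Φ (4 ^ J)) := by
            rw [Finset.sum_const, Nat.card_Ico, nsmul_eq_mul]
        _ ≤ (4:ℝ) ^ (J+1) * (((4:ℝ) ^ (J+1)) ^ (k + 2) * Φ (4 ^ J)) := by
            apply mul_le_mul_of_nonneg_right
            · have : 4 ^ (J+1) - 4 ^ J ≤ 4 ^ (J+1) := Nat.sub_le _ _
              exact_mod_cast this
            · exact mul_nonneg (by positivity) (h0 _).le
        _ = (4:ℝ)^(k+3) * ((4:ℝ) ^ (J * (k+3)) * Φ (4 ^ J)) := by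
            rw [← mul_assoc, ← mul_assoc]
            congr 1
            rw [← pow_mul, ← pow_add, ← pow_add]
            congr 1; ring
  calc ∑ n ∈ Finset.range X, (n : ℝ) ^ (k + 2) * Φ n
      ≤ ∑ n ∈ Finset.range (4 ^ X), (n : ℝ) ^ (k + 2) * Φ n := by
        apply Finset.sum_le_sum_of_subset_of_nonneg
        · apply Finset.range_mono
          exact (Nat.lt_pow_self (by norm_num)).le
        · intro n _ _; exact hH0 n
    _ ≤ _ := h1 X
    _ ≤ _ := by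
        apply mul_le_mul_of_nonneg_left _ (by positivity)
        exact hE's.sum_le_tsum _ (fun j _ => mul_nonneg (by positivity) (h0 _).le)

end Pool.Agent.TH443.MJ
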