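import Mathlib
import Pool.Agent.TH806.N4.Defs3

set_option autoImplicit false

/-!
N4 project (helper806, MP_f9aece_nt), job S2S3: the gcd sums `Σ (m,n)/(mn) (L + log((m,n)²/(mn)))` (`t_S2`) and
`Σ_{Y<m,n≤X} (m,n)/(mn)` (`t_S3`).
-/

namespace Pool.Agent.TH266.N4_S2S3
open Finset
open Pool.Agent.TH806.N4 (gk gl P_S2 P_S3)

noncomputable section

/-! ### Möbius and rearrangement -/

lemma mob_point (f : ℕ → ℝ) (G : ℕ) (hG : 0 < G) :
    f G = ∑ d ∈ G.divisors, ∑ x ∈ d.divisorsAntidiagonal,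
      f x.1 * ((ArithmeticFunction.moebius x.2 : ℤ) : ℝ) := by
  let F : ArithmeticFunction ℝ := ⟨fun n => if n = 0 then 0 else f n, by simp⟩
  have h1 : F = F * (ArithmeticFunction.moebius : ArithmeticFunction ℝ) * (ArithmeticFunction.zeta : ArithmeticFunction ℝ) := by
    rw [mul_assoc, ArithmeticFunction.coe_moebius_mul_coe_zeta, mul_one]
  have h2 : F G = f G := by
    show (if G = 0 then 0 else f G) = f G
    rw [if_neg hG.ne']
  rw [← h2]
  conv_lhs => rw [h1]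
  rw [ArithmeticFunction.coe_mul_zeta_apply]
  apply Finset.sum_congr rfl
  intro d hd
  rw [ArithmeticFunction.mul_apply]
  apply Finset.sum_congr rfl
  intro x hx
  have hx0 : x.1 ≠ 0 := by
    intro h
    have := Nat.mem_divisorsAntidiagonal.1 hx
    rw [h, zero_mul] at this
    exact this.2 this.1.symm
  have : F x.1 = f x.1 := by
    show (if x.1 = 0 then 0 else f x.1) = f x.1
    rw [if_neg hx0]
  rw [this, ArithmeticFunction.intCoe_apply]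

lemma sum_dvd (N d : ℕ) (hd : 1 ≤ d) (φ : ℕ → ℝ) :
    ∑ m ∈ Icc 1 N, (if d ∣ m then φ m else 0) = ∑ a ∈ Icc 1 (N / d), φ (d * a) := by
  rw [← Finset.sum_filter]
  symm
  apply Finset.sum_bij (fun k _ => d * k)
  · intro k hk
    simp only [mem_Icc, mem_filter] at hk ⊢
    refine ⟨⟨Nat.mul_pos hd hk.1, ?_⟩, dvd_mul_right _ _⟩
    exact (Nat.mul_le_mul_left _ hk.2).trans (Nat.mul_div_le _ _)
  · intro a _ b _ h
    exact Nat.eq_of_mul_eq_mul_left (by omega) h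
  · intro m hm
    simp only [mem_filter, mem_Icc] at hm
    obtain ⟨⟨h1, h2⟩, k, rfl⟩ := hm
    refine ⟨k, ?_, rfl⟩
    simp only [mem_Icc]
    refine ⟨Nat.pos_of_ne_zero (by rintro rfl; simp at h1), ?_⟩
    exact (Nat.le_div_iff_mul_le (by omega)).2 (by linarith [mul_comm d k])
  · intro k _; rfl

lemma sum_antidiag (N : ℕ) (H : ℕ → ℕ → ℝ) :
    ∑ d ∈ Icc 1 N, ∑ x ∈ d.divisorsAntidiagonal, H x.1 x.2
      = ∑ e ∈ Icc 1 N, ∑ g ∈ Icc 1 (N / e), H g e := by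
  rw [Finset.sum_sigma', Finset.sum_sigma']
  apply Finset.sum_bij' (fun (p : (_ : ℕ) × (ℕ × ℕ)) _ => (⟨p.2.2, p.2.1⟩ : (_ : ℕ) × ℕ))
    (fun (q : (_ : ℕ) × ℕ) _ => (⟨q.2 * q.1, (q.2, q.1)⟩ : (_ : ℕ) × (ℕ × ℕ)))
  · rintro ⟨d, g, e⟩ hp
    simp only [mem_sigma, mem_Icc, Nat.mem_divisorsAntidiagonal] at hp ⊢
    obtain ⟨⟨h1, h2⟩, h3, h4⟩ := hp
    have hg : 0 < g := Nat.pos_of_ne_zero (by rintro rfl; simp at h3; omega)
    have he : 0 < e := Nat.pos_of_ne_zero (by rintro rfl; simp at h3; omega)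
    refine ⟨⟨he, ?_⟩, hg, ?_⟩
    · calc e = 1 * e := (one_mul e).symm
        _ ≤ g * e := Nat.mul_le_mul_right _ hg
        _ ≤ N := h3 ▸ h2
    · exact (Nat.le_div_iff_mul_le he).2 (h3 ▸ h2)
  · rintro ⟨e, g⟩ hp
    simp only [mem_sigma, mem_Icc, Nat.mem_divisorsAntidiagonal] at hp ⊢
    obtain ⟨⟨h1, h2⟩, h3, h4⟩ := hp
    have h5 := (Nat.le_div_iff_mul_le (by omega)).1 h4
    have h6 : 0 < g * e := Nat.mul_pos h3 h1
    exact ⟨⟨h6, h5⟩, trivial, by omega⟩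
  · rintro ⟨d, g, e⟩ hp
    simp only [mem_sigma, mem_Icc, Nat.mem_divisorsAntidiagonal] at hp
    simp [hp.2.1]
  · rintro ⟨e, g⟩ hp
    rfl
  · rintro ⟨d, g, e⟩ hp
    rfl

lemma rearr (N : ℕ) (Φ : ℕ → ℕ → ℕ → ℕ → ℝ) :
    ∑ m ∈ Icc 1 N, ∑ n ∈ Icc 1 N, ∑ d ∈ (Nat.gcd m n).divisors, ∑ x ∈ d.divisorsAntidiagonal, Φ x.1 x.2 m n
      = ∑ e ∈ Icc 1 N, ∑ g ∈ Icc 1 (N / e), ∑ a ∈ Icc 1 (N / (g * e)), ∑ b ∈ Icc 1 (N / (g * e)),
          Φ g e (g * e * a) (g * e * b) := by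
  rw [← sum_antidiag N (fun g e => ∑ a ∈ Icc 1 (N / (g * e)), ∑ b ∈ Icc 1 (N / (g * e)),
          Φ g e (g * e * a) (g * e * b))]
  have h1 : ∀ m ∈ Icc 1 N, ∀ n ∈ Icc 1 N, ∑ d ∈ (Nat.gcd m n).divisors, ∑ x ∈ d.divisorsAntidiagonal, Φ x.1 x.2 m n
      = ∑ d ∈ Icc 1 N, if d ∣ m then (if d ∣ n then ∑ x ∈ d.divisorsAntidiagonal, Φ x.1 x.2 m n else 0) else 0 := by
    intro m hm n hn
    simp only [mem_Icc] at hm hn
    have hg : 0 < Nat.gcd m n := Nat.gcd_pos_of_pos_left _ (by omega)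
    have : (Nat.gcd m n).divisors = (Icc 1 N).filter (fun d => d ∣ m ∧ d ∣ n) := by
      ext d
      simp only [mem_filter, mem_Icc, Nat.mem_divisors, ← Nat.dvd_gcd_iff]
      constructor
      · rintro ⟨h, -⟩
        refine ⟨⟨Nat.pos_of_dvd_of_pos h hg, ?_⟩, h⟩
        exact (Nat.le_of_dvd (by omega) (h.trans (Nat.gcd_dvd_left _ _))).trans hm.2
      · rintro ⟨-, h⟩; exact ⟨h, hg.ne'⟩
    rw [this, Finset.sum_filter]
    apply Finset.sum_congr rfl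
    intro d _
    by_cases hm : d ∣ m <;> by_cases hn : d ∣ n <;> simp [hm, hn]
  calc ∑ m ∈ Icc 1 N, ∑ n ∈ Icc 1 N, ∑ d ∈ (Nat.gcd m n).divisors, ∑ x ∈ d.divisorsAntidiagonal, Φ x.1 x.2 m n
      = ∑ m ∈ Icc 1 N, ∑ n ∈ Icc 1 N, ∑ d ∈ Icc 1 N, (if d ∣ m then (if d ∣ n then ∑ x ∈ d.divisorsAntidiagonal, Φ x.1 x.2 m n else 0) else 0) :=
        Finset.sum_congr rfl fun m hm => Finset.sum_congr rfl fun n hn => h1 m hm n hn
    _ = ∑ m ∈ Icc 1 N, ∑ d ∈ Icc 1 N, ∑ n ∈ Icc 1 N, (if d ∣ m then (if d ∣ n then ∑ x ∈ d.divisorsAntidiagonal, Φ x.1 x.2 m n else 0) else 0) :=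
        Finset.sum_congr rfl fun m hm => Finset.sum_comm
    _ = ∑ d ∈ Icc 1 N, ∑ m ∈ Icc 1 N, ∑ n ∈ Icc 1 N, (if d ∣ m then (if d ∣ n then ∑ x ∈ d.divisorsAntidiagonal, Φ x.1 x.2 m n else 0) else 0) :=
        Finset.sum_comm
    _ = ∑ d ∈ Icc 1 N, ∑ m ∈ Icc 1 N, (if d ∣ m then (∑ n ∈ Icc 1 N, (if d ∣ n then ∑ x ∈ d.divisorsAntidiagonal, Φ x.1 x.2 m n else 0)) else 0) := by
        apply Finset.sum_congr rfl; intro d _
        apply Finset.sum_congr rfl; intro m _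
        by_cases hm : d ∣ m <;> simp [hm]
    _ = ∑ d ∈ Icc 1 N, ∑ a ∈ Icc 1 (N / d), ∑ b ∈ Icc 1 (N / d), ∑ x ∈ d.divisorsAntidiagonal, Φ x.1 x.2 (d * a) (d * b) := by
        apply Finset.sum_congr rfl; intro d hd
        simp only [mem_Icc] at hd
        rw [sum_dvd N d hd.1 (fun m => ∑ n ∈ Icc 1 N, (if d ∣ n then ∑ x ∈ d.divisorsAntidiagonal, Φ x.1 x.2 m n else 0))]
        apply Finset.sum_congr rfl; intro a _
        rw [sum_dvd N d hd.1 (fun n => ∑ x ∈ d.divisorsAntidiagonal, Φ x.1 x.2 (d * a) n)]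
    _ = ∑ d ∈ Icc 1 N, ∑ x ∈ d.divisorsAntidiagonal, ∑ a ∈ Icc 1 (N / d), ∑ b ∈ Icc 1 (N / d), Φ x.1 x.2 (d * a) (d * b) := by
        apply Finset.sum_congr rfl; intro d hd
        calc _ = ∑ a ∈ Icc 1 (N / d), ∑ x ∈ d.divisorsAntidiagonal, ∑ b ∈ Icc 1 (N / d), Φ x.1 x.2 (d * a) (d * b) :=
              Finset.sum_congr rfl fun a _ => Finset.sum_comm
          _ = _ := Finset.sum_comm
    _ = _ := by
        apply Finset.sum_congr rfl; intro d hd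
        apply Finset.sum_congr rfl; intro x hx
        rw [(Nat.mem_divisorsAntidiagonal.1 hx).1]

/-! ### harmonic sums -/

lemma harm_up (b : ℕ) (hb : 1 ≤ b) : ∑ k ∈ Icc 1 b, (1:ℝ) / k ≤ 1 + Real.log b := by
  induction b, hb using Nat.le_induction with
  | base => simp
  | succ b hb ih =>
    rw [Finset.sum_Icc_succ_top (by omega)]
    have hb0 : (0:ℝ) < b := by exact_mod_cast hb
    have h1 : (1:ℝ) / ((b+1 : ℕ):ℝ) ≤ Real.log ((b+1:ℕ):ℝ) - Real.log (b:ℝ) := by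
      rw [← Real.log_div (by positivity) (by positivity)]
      have h2 := Real.one_sub_inv_le_log_of_pos (x := ((b+1:ℕ):ℝ)/b) (by positivity)
      have h3 : (1:ℝ) / ((b+1 : ℕ):ℝ) = 1 - (((b+1:ℕ):ℝ)/b)⁻¹ := by
        push_cast; field_simp; ring
      rw [h3]; exact h2
    linarith

lemma harm_low (b : ℕ) : Real.log ((b:ℝ) + 1) ≤ ∑ k ∈ Icc 1 b, (1:ℝ) / k := by
  induction b with
  | zero => simp
  | succ b ih =>
    rw [Finset.sum_Icc_succ_top (by omega)]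
    have h1 : Real.log (((b+1:ℕ):ℝ) + 1) - Real.log ((b:ℝ)+1) ≤ (1:ℝ) / ((b+1 : ℕ):ℝ) := by
      rw [← Real.log_div (by positivity) (by positivity)]
      have h2 := Real.log_le_sub_one_of_pos (x := (((b+1:ℕ):ℝ) + 1)/((b:ℝ)+1)) (by positivity)
      have h3 : (((b+1:ℕ):ℝ) + 1)/((b:ℝ)+1) - 1 = (1:ℝ) / ((b+1 : ℕ):ℝ) := by
        push_cast; field_simp; ring
      rw [h3] at h2; exact h2
    linarith

lemma harm_low' (b : ℕ) (hb : 1 ≤ b) : Real.log b ≤ ∑ k ∈ Icc 1 b, (1:ℝ) / k :=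
  (Real.log_le_log (by exact_mod_cast hb) (by linarith)).trans (harm_low b)

lemma pow_up (j : ℕ) (u v : ℝ) (hv : 0 ≤ v) (huv : v ≤ u) :
    u ^ (j+1) - v ^ (j+1) ≤ (j+1) * u ^ j * (u - v) := by
  induction j with
  | zero => simp
  | succ j ih =>
    have hu : 0 ≤ u := hv.trans huv
    have h1 : u ^ (j+1+1) - v ^ (j+1+1) = u * (u^(j+1) - v^(j+1)) + (u - v) * v^(j+1) := by ring
    have h2 : u * (u^(j+1) - v^(j+1)) ≤ u * ((j+1) * u ^ j * (u - v)) := mul_le_mul_of_nonneg_left ih hu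
    have h3 : (u - v) * v^(j+1) ≤ (u - v) * u^(j+1) :=
      mul_le_mul_of_nonneg_left (pow_le_pow_left₀ hv huv _) (by linarith)
    rw [h1]; push_cast
    calc _ ≤ u * ((j+1) * u ^ j * (u - v)) + (u - v) * u^(j+1) := add_le_add h2 h3
      _ = _ := by ring

lemma pow_low (j : ℕ) (u v : ℝ) (hv : 0 ≤ v) (huv : v ≤ u) :
    (j+1) * v ^ j * (u - v) ≤ u ^ (j+1) - v ^ (j+1) := by
  induction j with
  | zero => simp
  | succ j ih =>
    have hu : 0 ≤ u := hv.trans huv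
    have h1 : u ^ (j+1+1) - v ^ (j+1+1) = v * (u^(j+1) - v^(j+1)) + (u - v) * u^(j+1) := by ring
    have h2 : v * ((j+1) * v ^ j * (u - v)) ≤ v * (u^(j+1) - v^(j+1)) := mul_le_mul_of_nonneg_left ih hv
    have h3 : (u - v) * v^(j+1) ≤ (u - v) * u^(j+1) :=
      mul_le_mul_of_nonneg_left (pow_le_pow_left₀ hv huv _) (by linarith)
    rw [h1]; push_cast
    calc _ = v * ((j+1) * v ^ j * (u - v)) + (u - v) * v^(j+1) := by ring
      _ ≤ _ := add_le_add h2 h3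

lemma tj_up (j : ℕ) (Z : ℝ) (hZ : 1 ≤ Z) (n : ℕ) (hn : 1 ≤ n) (hnZ : (n:ℝ) ≤ Z) :
    ∑ g ∈ Icc 1 n, (1:ℝ) / g * Real.log (Z / g) ^ j
      ≤ Real.log Z ^ j + (Real.log Z ^ (j+1) - Real.log (Z / n) ^ (j+1)) / (j + 1) := by
  induction n, hn using Nat.le_induction with
  | base => simp
  | succ n hn ih =>
    rw [Finset.sum_Icc_succ_top (by omega)]
    have hn0 : (0:ℝ) < n := by exact_mod_cast hn
    have hnZ' : (n:ℝ) + 1 ≤ Z := by exact_mod_cast hnZ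
    have ih := ih (by linarith)
    have hZ0 : 0 < Z := by linarith
    have hv : 0 ≤ Real.log (Z / ((n+1:ℕ):ℝ)) := by
      apply Real.log_nonneg; rw [le_div_iff₀ (by positivity)]; linarith
    have hd : (1:ℝ) / ((n+1 : ℕ):ℝ) ≤ Real.log (Z / n) - Real.log (Z / ((n+1:ℕ):ℝ)) := by
      rw [← Real.log_div (by positivity) (by positivity)]
      have h4 : Z / n / (Z / ((n+1:ℕ):ℝ)) = ((n+1:ℕ):ℝ)/n := by field_simp
      rw [h4]
      have h2 := Real.one_sub_inv_le_log_of_pos (x := ((n+1:ℕ):ℝ)/n) (by positivity)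
      have h3 : (1:ℝ) / ((n+1 : ℕ):ℝ) = 1 - (((n+1:ℕ):ℝ)/n)⁻¹ := by
        push_cast; field_simp; ring
      rw [h3]; exact h2
    have hd0 : (0:ℝ) < (1:ℝ) / ((n+1 : ℕ):ℝ) := by positivity
    have h5 := pow_low j (Real.log (Z / n)) (Real.log (Z / ((n+1:ℕ):ℝ))) hv (by linarith)
    have h6 : (1:ℝ) / ((n+1 : ℕ):ℝ) * Real.log (Z / ((n+1:ℕ):ℝ)) ^ j
        ≤ (Real.log (Z / n) ^ (j+1) - Real.log (Z / ((n+1:ℕ):ℝ)) ^ (j+1)) / (j + 1) := by
      rw [le_div_iff₀ (by positivity)]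
      refine le_trans ?_ h5
      calc (1:ℝ) / ((n+1 : ℕ):ℝ) * Real.log (Z / ((n+1:ℕ):ℝ)) ^ j * (j + 1)
          = ((j:ℝ)+1) * Real.log (Z / ((n+1:ℕ):ℝ)) ^ j * (1 / ((n+1 : ℕ):ℝ)) := by ring
        _ ≤ _ := mul_le_mul_of_nonneg_left hd (by positivity)
    have h7 : (Real.log Z ^ (j+1) - Real.log (Z / ((n+1:ℕ):ℝ)) ^ (j+1)) / ((j:ℝ) + 1)
       = (Real.log Z ^ (j+1) - Real.log (Z / n) ^ (j+1)) / (j + 1) +
        (Real.log (Z / n) ^ (j+1) - Real.log (Z / ((n+1:ℕ):ℝ)) ^ (j+1)) / (j + 1) := by ring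
    rw [h7]
    linarith

lemma tj_low (j : ℕ) (Z : ℝ) (hZ : 1 ≤ Z) (n : ℕ) (hn : 1 ≤ n) (hnZ : (n:ℝ) ≤ Z) :
    (Real.log Z ^ (j+1) - Real.log (Z / n) ^ (j+1)) / (j + 1)
      ≤ ∑ g ∈ Ico 1 n, (1:ℝ) / g * Real.log (Z / g) ^ j := by
  induction n, hn using Nat.le_induction with
  | base => simp
  | succ n hn ih =>
    rw [Finset.sum_Ico_succ_top (by omega)]
    have hn0 : (0:ℝ) < n := by exact_mod_cast hn
    have hnZ' : (n:ℝ) + 1 ≤ Z := by exact_mod_cast hnZ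
    have ih := ih (by linarith)
    have hZ0 : 0 < Z := by linarith
    have hv : 0 ≤ Real.log (Z / ((n+1:ℕ):ℝ)) := by
      apply Real.log_nonneg; rw [le_div_iff₀ (by positivity)]; linarith
    have hd : Real.log (Z / n) - Real.log (Z / ((n+1:ℕ):ℝ)) ≤ (1:ℝ) / n := by
      rw [← Real.log_div (by positivity) (by positivity)]
      have h4 : Z / n / (Z / ((n+1:ℕ):ℝ)) = ((n+1:ℕ):ℝ)/n := by field_simp
      rw [h4]
      have h2 := Real.log_le_sub_one_of_pos (x := ((n+1:ℕ):ℝ)/n) (by positivity)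
      have h3 : ((n+1:ℕ):ℝ)/n - 1 = (1:ℝ) / n := by
        push_cast; field_simp; ring
      rw [h3] at h2; exact h2
    have hd0 : 0 ≤ Real.log (Z / n) - Real.log (Z / ((n+1:ℕ):ℝ)) := by
      rw [sub_nonneg]
      apply Real.log_le_log (by positivity)
      apply div_le_div_of_nonneg_left hZ0.le hn0 (by push_cast; linarith)
    have h5 := pow_up j (Real.log (Z / n)) (Real.log (Z / ((n+1:ℕ):ℝ))) hv (by linarith)
    have h6 : (Real.log (Z / n) ^ (j+1) - Real.log (Z / ((n+1:ℕ):ℝ)) ^ (j+1)) / (j + 1)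
        ≤ (1:ℝ) / n * Real.log (Z / n) ^ j := by
      rw [div_le_iff₀ (by positivity)]
      refine h5.trans ?_
      calc ((j:ℝ)+1) * Real.log (Z / n) ^ j * (Real.log (Z / n) - Real.log (Z / ((n+1:ℕ):ℝ)))
          ≤ ((j:ℝ)+1) * Real.log (Z / n) ^ j * (1 / n) := mul_le_mul_of_nonneg_left hd (by
            have : 0 ≤ Real.log (Z / n) := by linarith
            positivity)
        _ = _ := by ring
    have h7 : (Real.log Z ^ (j+1) - Real.log (Z / ((n+1:ℕ):ℝ)) ^ (j+1)) / ((j:ℝ) + 1)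
       = (Real.log Z ^ (j+1) - Real.log (Z / n) ^ (j+1)) / (j + 1) +
        (Real.log (Z / n) ^ (j+1) - Real.log (Z / ((n+1:ℕ):ℝ)) ^ (j+1)) / (j + 1) := by ring
    rw [h7]
    linarith

lemma log_two_le_one : Real.log 2 ≤ 1 := by
  have := Real.log_le_sub_one_of_pos (x := 2) (by norm_num)
  linarith

/-- `Z` real, `N` its floor -/
lemma log_floor (Z : ℝ) (N : ℕ) (hN : 1 ≤ N) (h1 : (N:ℝ) ≤ Z) (h2 : Z ≤ (N:ℝ) + 1) :
    Real.log N ≤ Real.log Z ∧ Real.log Z ≤ Real.log N + 1 := by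
  have hN0 : (1:ℝ) ≤ N := by exact_mod_cast hN
  refine ⟨Real.log_le_log (by linarith) h1, ?_⟩
  have h3 : Real.log Z ≤ Real.log (2 * N) := Real.log_le_log (by linarith) (by linarith)
  rw [Real.log_mul (by norm_num) (by linarith)] at h3
  linarith [log_two_le_one]

lemma tj (j : ℕ) (Z : ℝ) (N : ℕ) (hN : 1 ≤ N) (h1 : (N:ℝ) ≤ Z) (h2 : Z ≤ (N:ℝ) + 1) :
    |∑ g ∈ Icc 1 N, (1:ℝ) / g * Real.log (Z / g) ^ j - Real.log Z ^ (j+1) / (j + 1)|
      ≤ (1 + Real.log Z) ^ j := by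
  have hN0 : (1:ℝ) ≤ N := by exact_mod_cast hN
  have hZ : 1 ≤ Z := by linarith
  have hl0 : 0 ≤ Real.log Z := Real.log_nonneg hZ
  have hup := tj_up j Z hZ N hN h1
  have hlo := tj_low j Z hZ N hN h1
  have hu0 : 0 ≤ Real.log (Z / N) := by
    apply Real.log_nonneg; rw [le_div_iff₀ (by positivity)]; linarith
  have hu1 : Real.log (Z / N) ≤ 1 := by
    rw [Real.log_div (by positivity) (by positivity)]
    have := (log_floor Z N hN h1 h2).2
    linarith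
  have h3 : Real.log (Z / N) ^ (j+1) ≤ 1 := pow_le_one₀ hu0 hu1
  have h4 : 0 ≤ Real.log (Z / N) ^ (j+1) := by positivity
  have h5 : 1 ≤ (1 + Real.log Z) ^ j := one_le_pow₀ (by linarith)
  have h6 : Real.log Z ^ j ≤ (1 + Real.log Z) ^ j := pow_le_pow_left₀ hl0 (by linarith) _
  have h7 : ∑ g ∈ Ico 1 N, (1:ℝ) / g * Real.log (Z / g) ^ j ≤ ∑ g ∈ Icc 1 N, (1:ℝ) / g * Real.log (Z / g) ^ j := by
    apply Finset.sum_le_sum_of_subset_of_nonneg
    · intro x hx; simp only [mem_Ico, mem_Icc] at hx ⊢; omega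
    · intro g hg _
      simp only [mem_Icc] at hg
      have hg0 : (0:ℝ) < g := by exact_mod_cast hg.1
      have : 0 ≤ Real.log (Z / g) := by
        apply Real.log_nonneg; rw [le_div_iff₀ hg0]
        have : (g:ℝ) ≤ N := by exact_mod_cast hg.2
        linarith
      positivity
  have hj : (0:ℝ) < (j:ℝ) + 1 := by positivity
  have h8 : (Real.log Z ^ (j+1) - Real.log (Z / N) ^ (j+1)) / ((j:ℝ) + 1) = Real.log Z ^ (j+1) / (j+1) - Real.log (Z / N) ^ (j+1) / (j+1) := by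
    ring
  rw [h8] at hup hlo
  have h9 : Real.log (Z / N) ^ (j+1) / ((j:ℝ)+1) ≤ 1 := by
    rw [div_le_one hj]; linarith [(Nat.cast_nonneg j : (0:ℝ) ≤ j)]
  have h10 : 0 ≤ Real.log (Z / N) ^ (j+1) / ((j:ℝ)+1) := by positivity
  rw [abs_le]
  constructor <;> linarith

/-! ### the double sum -/

/-- `U K L' = Σ_{a,b ≤ K} (L' - log a - log b)/(ab)` -/
def UU (K : ℕ) (L' : ℝ) : ℝ := ∑ a ∈ Icc 1 K, ∑ b ∈ Icc 1 K, (1:ℝ)/a * (1 / b) * (L' - Real.log a - Real.log b)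

lemma UU_eq (K : ℕ) (hK : 1 ≤ K) (L' : ℝ) :
    UU K L' = (L' - 2 * Real.log K) * (∑ a ∈ Icc 1 K, (1:ℝ)/a) ^ 2 +
      2 * (∑ a ∈ Icc 1 K, (1:ℝ)/a) * ∑ a ∈ Icc 1 K, (1:ℝ)/a * Real.log ((K:ℝ)/a) ^ 1 := by
  have hK0 : (0:ℝ) < K := by exact_mod_cast hK
  have h1 : ∀ a ∈ Icc 1 K, Real.log ((K:ℝ)/a) = Real.log K - Real.log a := by
    intro a ha
    simp only [mem_Icc] at ha
    have : (0:ℝ) < a := by exact_mod_cast ha.1
    rw [Real.log_div hK0.ne' this.ne']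
  have h2 : UU K L' = ∑ a ∈ Icc 1 K, ∑ b ∈ Icc 1 K, ((L' - 2 * Real.log K) * ((1:ℝ)/a * (1 / b)) +
      ((1:ℝ)/a * Real.log ((K:ℝ)/a)) * (1 / b) + (1/a) * ((1:ℝ)/b * Real.log ((K:ℝ)/b))) := by
    unfold UU
    apply Finset.sum_congr rfl; intro a ha
    apply Finset.sum_congr rfl; intro b hb
    rw [h1 a ha, h1 b hb]; ring
  rw [h2]
  simp only [Finset.sum_add_distrib, ← Finset.mul_sum, ← Finset.sum_mul, pow_one]
  ring

lemma UU_bd (K : ℕ) (hK : 1 ≤ K) (L lam : ℝ) (hL : 1 ≤ L) (hKL : Real.log K ≤ L) (hlam : 0 ≤ lam) :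
    |UU K (L - 2 * lam) - (L * Real.log K ^ 2 - Real.log K ^ 3)| ≤ 20 * L ^ 2 * (1 + lam) := by
  rw [UU_eq K hK]
  have hl0 : 0 ≤ Real.log K := Real.log_nonneg (by exact_mod_cast hK)
  obtain ⟨θ, hθ⟩ : ∃ θ : ℝ, ∑ a ∈ Icc 1 K, (1:ℝ)/a = Real.log K + θ := ⟨_, (add_sub_cancel _ _).symm⟩
  have hθ0 : 0 ≤ θ := by have := harm_low' K hK; linarith
  have hθ1 : θ ≤ 1 := by have := harm_up K hK; linarith
  have h1 := tj 1 (K:ℝ) K hK le_rfl (by linarith)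
  obtain ⟨τ, hτ⟩ : ∃ τ : ℝ, ∑ a ∈ Icc 1 K, (1:ℝ)/a * Real.log ((K:ℝ)/a) ^ 1 = Real.log K ^ 2 / 2 + τ := ⟨_, (add_sub_cancel _ _).symm⟩
  rw [hτ] at h1 ⊢
  rw [hθ]
  have h2 : |τ| ≤ 1 + Real.log K := by
    have : Real.log (K:ℝ) ^ 2 / 2 + τ - Real.log (K:ℝ) ^ (1+1) / (((1:ℕ):ℝ) + 1) = τ := by
      norm_num
    rw [this] at h1
    simpa using h1
  set l := Real.log K with hl
  have e : (L - 2 * lam - 2 * l) * (l + θ) ^ 2 + 2 * (l + θ) * (l ^ 2 / 2 + τ) - (L * l ^ 2 - l ^ 3)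
     = (L - 2 * l) * (2 * l * θ + θ ^ 2) - 2 * lam * (l + θ) ^ 2 + 2 * l * τ + 2 * θ * (l^2/2) + 2 * θ * τ := by ring
  rw [e]
  obtain ⟨h3, h4⟩ := abs_le.1 h2
  have a1 : |(L - 2 * l) * (2 * l * θ + θ ^ 2)| ≤ L * (3 * L) := by
    rw [abs_mul]
    apply mul_le_mul _ _ (abs_nonneg _) (by linarith)
    · rw [abs_le]; constructor <;> linarith
    · rw [abs_of_nonneg (by positivity)]; nlinarith
  have a2 : |2 * lam * (l + θ) ^ 2| ≤ 2 * lam * (4 * L ^ 2) := by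
    rw [abs_of_nonneg (by positivity)]
    apply mul_le_mul_of_nonneg_left _ (by positivity)
    nlinarith
  have a3 : |2 * l * τ| ≤ 2 * L * (2 * L) := by
    rw [abs_mul, abs_of_nonneg (by positivity : 0 ≤ 2 * l)]
    apply mul_le_mul (by linarith) (by linarith) (abs_nonneg _) (by linarith)
  have a4 : |2 * θ * (l^2/2)| ≤ L ^ 2 := by
    rw [abs_of_nonneg (by positivity)]
    nlinarith [mul_nonneg hθ0 (sq_nonneg l), pow_le_pow_left₀ hl0 hKL 2]
  have a5 : |2 * θ * τ| ≤ 2 * (2 * L) := by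
    rw [abs_mul, abs_of_nonneg (by positivity : 0 ≤ 2 * θ)]
    apply mul_le_mul (by linarith) (by linarith) (abs_nonneg _) (by linarith)
  have hLL : L ≤ L ^ 2 := by nlinarith
  calc _ ≤ |(L - 2 * l) * (2 * l * θ + θ ^ 2)| + |2 * lam * (l + θ) ^ 2| + |2 * l * τ| + |2 * θ * (l^2/2)| + |2 * θ * τ| := by
        have b1 := abs_add_le ((L - 2 * l) * (2 * l * θ + θ ^ 2) - 2 * lam * (l + θ) ^ 2 + 2 * l * τ + 2 * θ * (l^2/2)) (2 * θ * τ)
        have b2 := abs_add_le ((L - 2 * l) * (2 * l * θ + θ ^ 2) - 2 * lam * (l + θ) ^ 2 + 2 * l * τ) (2 * θ * (l^2/2))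
        have b3 := abs_add_le ((L - 2 * l) * (2 * l * θ + θ ^ 2) - 2 * lam * (l + θ) ^ 2) (2 * l * τ)
        have b4 := abs_sub ((L - 2 * l) * (2 * l * θ + θ ^ 2)) (2 * lam * (l + θ) ^ 2)
        linarith
    _ ≤ L * (3 * L) + 2 * lam * (4 * L ^ 2) + 2 * L * (2 * L) + L ^ 2 + 2 * (2 * L) := by linarith
    _ ≤ 20 * L ^ 2 * (1 + lam) := by nlinarith [mul_nonneg hlam (sq_nonneg L)]

/-- cubic main term -/
def FF (L x : ℝ) : ℝ := L * x ^ 3 / 3 - x ^ 4 / 4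

lemma FF_lip (L x y : ℝ) (hx : 0 ≤ x) (hxy : x ≤ y) (hyL : y ≤ L) :
    |FF L y - FF L x| ≤ 2 * L ^ 3 * (y - x) := by
  have hy : 0 ≤ y := hx.trans hxy
  have hL : 0 ≤ L := hy.trans hyL
  have h1 := pow_up 2 y x hx hxy
  have h2 := pow_up 3 y x hx hxy
  have h3 : 0 ≤ y ^ 3 - x ^ 3 := by have := pow_le_pow_left₀ hx hxy 3; linarith
  have h4 : 0 ≤ y ^ 4 - x ^ 4 := by have := pow_le_pow_left₀ hx hxy 4; linarith
  norm_num at h1 h2
  have h5 : y ^ 2 ≤ L ^ 2 := pow_le_pow_left₀ hy hyL 2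
  have h6 : y ^ 3 ≤ L ^ 3 := pow_le_pow_left₀ hy hyL 3
  have h7 : 0 ≤ y - x := by linarith
  have h8 : L * (y^3 - x^3) / 3 ≤ L ^ 3 * (y - x) := by
    calc L * (y^3 - x^3) / 3 ≤ L * (3 * y^2 * (y - x)) / 3 := by gcongr; linarith
      _ = L * y ^ 2 * (y - x) := by ring
      _ ≤ L * L ^ 2 * (y - x) := by gcongr
      _ = _ := by ring
  have h9 : (y^4 - x^4) / 4 ≤ L ^ 3 * (y - x) := by
    calc (y^4 - x^4) / 4 ≤ (4 * y^3 * (y - x)) / 4 := by gcongr; linarith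
      _ = y ^ 3 * (y - x) := by ring
      _ ≤ _ := by gcongr
  have e : FF L y - FF L x = L * (y^3 - x^3) / 3 - (y^4 - x^4) / 4 := by unfold FF; ring
  have h10 : 0 ≤ L * (y^3 - x^3) / 3 := by positivity
  have h11 : 0 ≤ (y^4 - x^4) / 4 := by positivity
  have h12 : 0 ≤ L ^ 3 * (y - x) := by positivity
  rw [e, abs_le]
  constructor <;> linarith

/-- main term at a real point vs at its floor -/
lemma GG_lip (L x y : ℝ) (hx : 0 ≤ x) (hxy : x ≤ y) (hyx : y ≤ x + 1) (hyL : y ≤ L) :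
    |(L * y ^ 2 - y ^ 3) - (L * x ^ 2 - x ^ 3)| ≤ 3 * L ^ 2 := by
  have hy : 0 ≤ y := hx.trans hxy
  have hL : 0 ≤ L := hy.trans hyL
  have h1 := pow_up 1 y x hx hxy
  have h2 := pow_up 2 y x hx hxy
  norm_num at h1 h2
  have h3 : 0 ≤ y ^ 3 - x ^ 3 := by have := pow_le_pow_left₀ hx hxy 3; linarith
  have h4 : 0 ≤ y ^ 2 - x ^ 2 := by have := pow_le_pow_left₀ hx hxy 2; linarith
  have h5 : y ^ 2 ≤ L ^ 2 := pow_le_pow_left₀ hy hyL 2
  have h8 : L * (y^2 - x^2) ≤ 2 * L ^ 2 := by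
    calc L * (y^2 - x^2) ≤ L * (2 * y * (y - x)) := by gcongr; linarith
      _ ≤ L * (2 * L * 1) := by gcongr; linarith
      _ = _ := by ring
  have h9 : (y^3 - x^3) ≤ 3 * L ^ 2 := by
    calc (y^3 - x^3) ≤ (3 * y^2 * (y - x)) := by linarith
      _ ≤ 3 * L ^ 2 * 1 := by gcongr; linarith
      _ = _ := by ring
  have e : (L * y ^ 2 - y ^ 3) - (L * x ^ 2 - x ^ 3) = L * (y^2 - x^2) - (y^3 - x^3) := by ring
  have h10 : 0 ≤ L * (y^2 - x^2) := by positivity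
  rw [e, abs_le]
  constructor <;> nlinarith [sq_nonneg L]

lemma inner_bd (N e : ℕ) (he : 1 ≤ e) (heN : e ≤ N) (L : ℝ) (hL : 1 ≤ L) (hNL : Real.log N ≤ L) :
    |(∑ g ∈ Icc 1 (N / e), (1:ℝ) / g * UU (N / (g * e)) (L - 2 * Real.log e)) - FF L (Real.log N)|
      ≤ 60 * L ^ 3 * (1 + Real.log e) := by
  have he0 : (1:ℝ) ≤ e := by exact_mod_cast he
  have hN1 : 1 ≤ N := he.trans heN
  have hN0 : (1:ℝ) ≤ N := by exact_mod_cast hN1
  have hlam : 0 ≤ Real.log e := Real.log_nonneg he0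
  set M := N / e with hM
  have hM1 : 1 ≤ M := (Nat.le_div_iff_mul_le (by omega)).2 (by omega)
  have hM0 : (1:ℝ) ≤ M := by exact_mod_cast hM1
  set Z : ℝ := (N:ℝ) / e with hZ
  have hMZ : (M:ℝ) ≤ Z := Nat.cast_div_le
  have hZM : Z ≤ (M:ℝ) + 1 := by
    rw [hZ, div_le_iff₀ (by linarith)]
    have := (Nat.lt_mul_div_succ N (b := e) (by omega)).le
    have h2 : (N:ℝ) ≤ ((e * (N / e + 1) : ℕ):ℝ) := by exact_mod_cast this
    push_cast at h2
    rw [mul_comm]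
    exact h2
  have hZ1 : 1 ≤ Z := hM0.trans hMZ
  have hlZ0 : 0 ≤ Real.log Z := Real.log_nonneg hZ1
  have hlZ : Real.log Z = Real.log N - Real.log e := Real.log_div (by linarith) (by linarith)
  have hlZL : Real.log Z ≤ L := by linarith
  have step1 : ∀ g ∈ Icc 1 M, |UU (N / (g * e)) (L - 2 * Real.log e) -
      (L * Real.log (Z / g) ^ 2 - Real.log (Z / g) ^ 3)| ≤ 23 * L ^ 2 * (1 + Real.log e) := by
    intro g hg
    simp only [mem_Icc] at hg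
    have hg0 : (1:ℝ) ≤ g := by exact_mod_cast hg.1
    have hge : 0 < g * e := Nat.mul_pos hg.1 he
    have hle : g * e ≤ N := (Nat.le_div_iff_mul_le he).1 hg.2
    set K := N / (g * e) with hK
    have hK1 : 1 ≤ K := (Nat.le_div_iff_mul_le hge).2 (by omega)
    have hKZ : (K:ℝ) ≤ Z / g := by
      have : ((N / (g * e) : ℕ) : ℝ) ≤ (N:ℝ) / ((g * e : ℕ):ℝ) := Nat.cast_div_le
      rw [hZ, div_div]
      push_cast at this
      rw [mul_comm (e:ℝ)]
      exact this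
    have hZK : Z / g ≤ (K:ℝ) + 1 := by
      rw [hZ, div_div, div_le_iff₀ (by positivity)]
      have := (Nat.lt_mul_div_succ N (b := g * e) hge).le
      have h2 : (N:ℝ) ≤ ((g * e * (N / (g * e) + 1) : ℕ):ℝ) := by exact_mod_cast this
      push_cast at h2
      calc (N:ℝ) ≤ _ := h2
        _ = _ := by rw [hK]; ring
    have hlf := log_floor (Z / g) K hK1 hKZ hZK
    have hl0 : 0 ≤ Real.log K := Real.log_nonneg (by exact_mod_cast hK1)
    have hle2 : Real.log (Z / g) ≤ Real.log Z := by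
      apply Real.log_le_log (by positivity)
      exact div_le_self (by linarith) hg0
    have b1 := UU_bd K hK1 L (Real.log e) hL (by linarith) hlam
    have b2 := GG_lip L (Real.log K) (Real.log (Z / g)) hl0 hlf.1 hlf.2 (by linarith)
    have b3 : 3 * L ^ 2 ≤ 3 * L ^ 2 * (1 + Real.log e) := by nlinarith [mul_nonneg hlam (sq_nonneg L)]
    have e1 : UU K (L - 2 * Real.log e) - (L * Real.log (Z / g) ^ 2 - Real.log (Z / g) ^ 3)
      = (UU K (L - 2 * Real.log e) - (L * Real.log K ^ 2 - Real.log K ^ 3)) -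
        ((L * Real.log (Z / g) ^ 2 - Real.log (Z / g) ^ 3) - (L * Real.log K ^ 2 - Real.log K ^ 3)) := by ring
    rw [e1]
    refine (abs_sub _ _).trans ?_
    linarith
  have h2 := tj 2 Z M hM1 hMZ hZM
  have h3 := tj 3 Z M hM1 hMZ hZM
  have hh : ∑ g ∈ Icc 1 M, (1:ℝ) / g ≤ 2 * L := by
    have := harm_up M hM1
    have h4 : Real.log M ≤ Real.log Z := Real.log_le_log (by linarith) hMZ
    linarith
  set A2 := ∑ g ∈ Icc 1 M, (1:ℝ) / g * Real.log (Z / g) ^ 2 with hA2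
  set A3 := ∑ g ∈ Icc 1 M, (1:ℝ) / g * Real.log (Z / g) ^ 3 with hA3
  have step2 : |(∑ g ∈ Icc 1 M, (1:ℝ) / g * UU (N / (g * e)) (L - 2 * Real.log e)) - (L * A2 - A3)|
      ≤ 46 * L ^ 3 * (1 + Real.log e) := by
    have e2 : (∑ g ∈ Icc 1 M, (1:ℝ) / g * UU (N / (g * e)) (L - 2 * Real.log e)) - (L * A2 - A3)
      = ∑ g ∈ Icc 1 M, (1:ℝ) / g * (UU (N / (g * e)) (L - 2 * Real.log e) - (L * Real.log (Z / g) ^ 2 - Real.log (Z / g) ^ 3)) := by
      rw [hA2, hA3, Finset.mul_sum, ← Finset.sum_sub_distrib, ← Finset.sum_sub_distrib]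
      apply Finset.sum_congr rfl; intro g _; ring
    rw [e2]
    refine (Finset.abs_sum_le_sum_abs _ _).trans ?_
    calc ∑ g ∈ Icc 1 M, |(1:ℝ) / g * (UU (N / (g * e)) (L - 2 * Real.log e) - (L * Real.log (Z / g) ^ 2 - Real.log (Z / g) ^ 3))|
        ≤ ∑ g ∈ Icc 1 M, (1:ℝ) / g * (23 * L ^ 2 * (1 + Real.log e)) := by
          apply Finset.sum_le_sum; intro g hg
          rw [abs_mul, abs_of_nonneg (by positivity : (0:ℝ) ≤ 1 / g)]
          exact mul_le_mul_of_nonneg_left (step1 g hg) (by positivity)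
      _ = (∑ g ∈ Icc 1 M, (1:ℝ) / g) * (23 * L ^ 2 * (1 + Real.log e)) := by rw [Finset.sum_mul]
      _ ≤ (2 * L) * (23 * L ^ 2 * (1 + Real.log e)) := mul_le_mul_of_nonneg_right hh (by positivity)
      _ = _ := by ring
  have step3 : |(L * A2 - A3) - FF L (Real.log Z)| ≤ 12 * L ^ 3 := by
    have e3 : (L * A2 - A3) - FF L (Real.log Z) = L * (A2 - Real.log Z ^ (2+1) / (((2:ℕ):ℝ) + 1)) - (A3 - Real.log Z ^ (3+1) / (((3:ℕ):ℝ)+1)) := by
      unfold FF; push_cast; ring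
    rw [e3]
    refine (abs_sub _ _).trans ?_
    rw [abs_mul, abs_of_nonneg (by linarith : (0:ℝ) ≤ L)]
    have h5 : (1 + Real.log Z) ^ 2 ≤ (2 * L) ^ 2 := pow_le_pow_left₀ (by linarith) (by linarith) 2
    have h6 : (1 + Real.log Z) ^ 3 ≤ (2 * L) ^ 3 := pow_le_pow_left₀ (by linarith) (by linarith) 3
    have h7 : L * |A2 - Real.log Z ^ (2+1) / (((2:ℕ):ℝ) + 1)| ≤ L * (2 * L) ^ 2 :=
      mul_le_mul_of_nonneg_left (h2.trans h5) (by linarith)
    have h8 := h3.trans h6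
    calc _ ≤ L * (2 * L) ^ 2 + (2 * L) ^ 3 := add_le_add h7 h8
      _ = _ := by ring
  have step4 : |FF L (Real.log N) - FF L (Real.log Z)| ≤ 2 * L ^ 3 * Real.log e := by
    have := FF_lip L (Real.log Z) (Real.log N) hlZ0 (by linarith) hNL
    have e4 : Real.log N - Real.log Z = Real.log e := by linarith
    rw [e4] at this
    exact this
  have e5 : (∑ g ∈ Icc 1 M, (1:ℝ) / g * UU (N / (g * e)) (L - 2 * Real.log e)) - FF L (Real.log N)
    = ((∑ g ∈ Icc 1 M, (1:ℝ) / g * UU (N / (g * e)) (L - 2 * Real.log e)) - (L * A2 - A3)) +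
      ((L * A2 - A3) - FF L (Real.log Z)) - (FF L (Real.log N) - FF L (Real.log Z)) := by ring
  rw [e5]
  refine (abs_sub _ _).trans ?_
  have b1 := abs_add_le ((∑ g ∈ Icc 1 M, (1:ℝ) / g * UU (N / (g * e)) (L - 2 * Real.log e)) - (L * A2 - A3)) ((L * A2 - A3) - FF L (Real.log Z))
  have hL3 : 0 ≤ L ^ 3 := by positivity
  nlinarith [mul_nonneg hL3 hlam]

/-! ### the Möbius series -/

lemma mob_hasSum : HasSum (fun n : ℕ => ((ArithmeticFunction.moebius n : ℤ) : ℝ) / (n:ℝ) ^ 2) (6 / Real.pi ^ 2) := by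
  have h2 : (1:ℝ) < (2:ℂ).re := by norm_num
  have h1 := ArithmeticFunction.LSeries_zeta_mul_Lseries_moebius h2
  rw [ArithmeticFunction.LSeries_zeta_eq_riemannZeta h2, riemannZeta_two] at h1
  have hs := (ArithmeticFunction.LSeriesSummable_moebius_iff (s := 2)).2 h2
  have hs2 : HasSum (LSeries.term (fun n => ((ArithmeticFunction.moebius n : ℤ) : ℂ)) 2) (LSeries (fun n => ((ArithmeticFunction.moebius n : ℤ) : ℂ)) 2) := hs.hasSum
  have hv : LSeries (fun n => ((ArithmeticFunction.moebius n : ℤ) : ℂ)) 2 = ((6 / Real.pi ^ 2 : ℝ) : ℂ) := by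
    have hpi : (Real.pi : ℂ) ≠ 0 := by exact_mod_cast Real.pi_ne_zero
    have : ((Real.pi:ℂ) ^ 2 / 6) ≠ 0 := by
      apply div_ne_zero (pow_ne_zero _ hpi) (by norm_num)
    have h3 : LSeries (fun n => ((ArithmeticFunction.moebius n : ℤ) : ℂ)) 2 = ((Real.pi:ℂ) ^ 2 / 6)⁻¹ := by
      apply eq_inv_of_mul_eq_one_right
      exact h1
    rw [h3]; push_cast; rw [inv_div]
  rw [hv] at hs2
  have h4 : (LSeries.term (fun n => ((ArithmeticFunction.moebius n : ℤ) : ℂ)) 2) =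
      fun n : ℕ => ((((ArithmeticFunction.moebius n : ℤ) : ℝ) / (n:ℝ) ^ 2 : ℝ) : ℂ) := by
    funext n
    rw [LSeries.term_def]
    split_ifs with h
    · simp [h]
    · push_cast
      congr 1
      norm_cast
  rw [h4] at hs2
  exact Complex.hasSum_ofReal.1 hs2

lemma sq_tail (N M : ℕ) (hN : 1 ≤ N) (hNM : N ≤ M) : ∑ n ∈ Ioc N M, (1:ℝ) / (n:ℝ)^2 ≤ 1 / N - 1 / M := by
  induction M, hNM using Nat.le_induction with
  | base => simp
  | succ M hM ih =>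
    rw [Finset.sum_Ioc_succ_top (by omega)]
    have hM0 : (0:ℝ) < M := by exact_mod_cast (by omega : 0 < M)
    have : (1:ℝ) / ((M+1:ℕ):ℝ)^2 ≤ 1 / M - 1 / ((M+1:ℕ):ℝ) := by
      push_cast
      rw [div_sub_div _ _ hM0.ne' (by positivity), div_le_div_iff₀ (by positivity) (by positivity)]
      nlinarith
    linarith

lemma mob_tail (N : ℕ) (hN : 1 ≤ N) :
    |(∑ e ∈ Icc 1 N, ((ArithmeticFunction.moebius e : ℤ) : ℝ) / (e:ℝ) ^ 2) - 6 / Real.pi ^ 2| ≤ (1:ℝ) / N := by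
  have h1 := mob_hasSum.tendsto_sum_nat
  have h2 : Filter.Tendsto (fun M : ℕ => |(∑ e ∈ Icc 1 N, ((ArithmeticFunction.moebius e : ℤ) : ℝ) / (e:ℝ) ^ 2) -
      ∑ i ∈ range M, ((ArithmeticFunction.moebius i : ℤ) : ℝ) / (i:ℝ) ^ 2|) Filter.atTop
      (nhds |(∑ e ∈ Icc 1 N, ((ArithmeticFunction.moebius e : ℤ) : ℝ) / (e:ℝ) ^ 2) - 6 / Real.pi ^ 2|) :=
    (tendsto_const_nhds.sub h1).abs
  apply le_of_tendsto h2
  filter_upwards [Filter.eventually_ge_atTop (N+1)] with M hM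
  obtain ⟨K, rfl⟩ : ∃ K, M = K + 1 := ⟨M - 1, by omega⟩
  have h3 : ∑ i ∈ range (K+1), ((ArithmeticFunction.moebius i : ℤ) : ℝ) / (i:ℝ) ^ 2
      = (∑ e ∈ Icc 1 N, ((ArithmeticFunction.moebius e : ℤ) : ℝ) / (e:ℝ) ^ 2) +
        ∑ e ∈ Ioc N K, ((ArithmeticFunction.moebius e : ℤ) : ℝ) / (e:ℝ) ^ 2 := by
    have hd : range (K+1) = insert 0 (Icc 1 N ∪ Ioc N K) := by
      ext x; simp only [mem_range, mem_insert, mem_union, mem_Icc, mem_Ioc]; omega
    rw [hd, Finset.sum_insert (by simp), Finset.sum_union]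
    · simp
    · rw [Finset.disjoint_left]; intro x hx hy; simp only [mem_Icc, mem_Ioc] at hx hy; omega
  rw [h3]
  have h4 : ∀ a b : ℝ, |a - (a + b)| = |b| := by intro a b; rw [← abs_neg b]; congr 1; ring
  rw [h4]
  refine (Finset.abs_sum_le_sum_abs _ _).trans ?_
  calc ∑ e ∈ Ioc N K, |((ArithmeticFunction.moebius e : ℤ) : ℝ) / (e:ℝ) ^ 2|
      ≤ ∑ e ∈ Ioc N K, (1:ℝ) / (e:ℝ)^2 := by
        apply Finset.sum_le_sum; intro e _
        rw [abs_div, abs_of_nonneg (by positivity : (0:ℝ) ≤ (e:ℝ)^2)]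
        apply div_le_div_of_nonneg_right _ (by positivity)
        exact_mod_cast ArithmeticFunction.abs_moebius_le_one
    _ ≤ 1 / N - 1 / K := sq_tail N K hN (by omega)
    _ ≤ 1 / N := by have : (0:ℝ) ≤ 1 / K := by positivity
                    linarith

lemma log_sum : ∃ B : ℝ, 0 < B ∧ ∀ N : ℕ, ∑ e ∈ Icc 1 N, (1:ℝ) / (e:ℝ)^2 * (1 + Real.log e) ≤ B := by
  have hs : Summable (fun n : ℕ => 2 * (1 / (n:ℝ) ^ (3/2 : ℝ))) := (Real.summable_one_div_nat_rpow.2 (by norm_num)).mul_left 2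
  refine ⟨(∑' n : ℕ, 2 * (1 / (n:ℝ) ^ (3/2 : ℝ))) + 1, ?_, ?_⟩
  · have : 0 ≤ ∑' n : ℕ, 2 * (1 / (n:ℝ) ^ (3/2 : ℝ)) := tsum_nonneg fun n => by positivity
    linarith
  · intro N
    have h1 : ∑ e ∈ Icc 1 N, (1:ℝ) / (e:ℝ)^2 * (1 + Real.log e) ≤ ∑ e ∈ Icc 1 N, 2 * (1 / (e:ℝ) ^ (3/2 : ℝ)) := by
      apply Finset.sum_le_sum; intro e he
      simp only [mem_Icc] at he
      have he0 : (0:ℝ) < e := by exact_mod_cast he.1
      have h2 : Real.log e ≤ 2 * ((e:ℝ) ^ (1/2:ℝ)) - 1 := by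
        have h3 := Real.log_le_sub_one_of_pos (x := (e:ℝ)^(1/2:ℝ)) (by positivity)
        rw [Real.log_rpow he0] at h3
        linarith
      have h4 : (e:ℝ) ^ (1/2:ℝ) / (e:ℝ)^2 = 1 / (e:ℝ) ^ (3/2 : ℝ) := by
        rw [div_eq_div_iff (by positivity) (by positivity), one_mul, ← Real.rpow_add he0]
        norm_num
      calc (1:ℝ) / (e:ℝ)^2 * (1 + Real.log e) ≤ (1:ℝ) / (e:ℝ)^2 * (2 * (e:ℝ) ^ (1/2:ℝ)) := by
            apply mul_le_mul_of_nonneg_left _ (by positivity); linarith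
        _ = 2 * ((e:ℝ) ^ (1/2:ℝ) / (e:ℝ)^2) := by ring
        _ = _ := by rw [h4]
    have h5 : ∑ e ∈ Icc 1 N, 2 * (1 / (e:ℝ) ^ (3/2 : ℝ)) ≤ ∑' n : ℕ, 2 * (1 / (n:ℝ) ^ (3/2 : ℝ)) :=
      hs.sum_le_tsum _ (fun n _ => by positivity)
    linarith

/-! ### assembly -/

lemma main_id (N : ℕ) (L : ℝ) :
    ∑ m ∈ Icc 1 N, ∑ n ∈ Icc 1 N, gk m n * (L + gl m n)
      = ∑ e ∈ Icc 1 N, ((ArithmeticFunction.moebius e : ℤ) : ℝ) / (e:ℝ)^2 *
          ∑ g ∈ Icc 1 (N / e), (1:ℝ) / g * UU (N / (g * e)) (L - 2 * Real.log e) := by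
  have h1 : ∀ m ∈ Icc 1 N, ∀ n ∈ Icc 1 N, gk m n * (L + gl m n) =
      ∑ d ∈ (Nat.gcd m n).divisors, ∑ x ∈ d.divisorsAntidiagonal,
        (1 / ((m:ℝ) * n)) * ((x.1:ℝ) * (L - Real.log m - Real.log n + 2 * Real.log x.1) * ((ArithmeticFunction.moebius x.2 : ℤ) : ℝ)) := by
    intro m hm n hn
    simp only [mem_Icc] at hm hn
    have hg : 0 < Nat.gcd m n := Nat.gcd_pos_of_pos_left _ (by omega)
    have hm0 : (0:ℝ) < m := by exact_mod_cast hm.1
    have hn0 : (0:ℝ) < n := by exact_mod_cast hn.1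
    have hg0 : (0:ℝ) < (Nat.gcd m n : ℝ) := by exact_mod_cast hg
    have h2 := mob_point (fun g => (g:ℝ) * (L - Real.log m - Real.log n + 2 * Real.log g)) (Nat.gcd m n) hg
    simp only [← Finset.mul_sum]
    rw [← h2, gk, gl, Real.log_div (by positivity) (by positivity), Real.log_pow, Real.log_mul hm0.ne' hn0.ne']
    push_cast
    ring
  calc ∑ m ∈ Icc 1 N, ∑ n ∈ Icc 1 N, gk m n * (L + gl m n)
      = ∑ m ∈ Icc 1 N, ∑ n ∈ Icc 1 N, ∑ d ∈ (Nat.gcd m n).divisors, ∑ x ∈ d.divisorsAntidiagonal,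
        (1 / ((m:ℝ) * n)) * ((x.1:ℝ) * (L - Real.log m - Real.log n + 2 * Real.log x.1) * ((ArithmeticFunction.moebius x.2 : ℤ) : ℝ)) :=
        Finset.sum_congr rfl fun m hm => Finset.sum_congr rfl fun n hn => h1 m hm n hn
    _ = ∑ e ∈ Icc 1 N, ∑ g ∈ Icc 1 (N / e), ∑ a ∈ Icc 1 (N / (g * e)), ∑ b ∈ Icc 1 (N / (g * e)),
        (1 / (((g * e * a : ℕ):ℝ) * ((g * e * b : ℕ):ℝ))) * ((g:ℝ) * (L - Real.log ((g * e * a : ℕ):ℝ) - Real.log ((g * e * b : ℕ):ℝ) + 2 * Real.log g) * ((ArithmeticFunction.moebius e : ℤ) : ℝ)) :=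
        rearr N (fun g e m n => (1 / ((m:ℝ) * n)) * ((g:ℝ) * (L - Real.log m - Real.log n + 2 * Real.log g) * ((ArithmeticFunction.moebius e : ℤ) : ℝ)))
    _ = _ := by
        apply Finset.sum_congr rfl; intro e he
        rw [Finset.mul_sum]
        apply Finset.sum_congr rfl; intro g hg
        rw [← mul_assoc, UU, Finset.mul_sum]
        apply Finset.sum_congr rfl; intro a ha
        rw [Finset.mul_sum]
        apply Finset.sum_congr rfl; intro b hb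
        simp only [mem_Icc] at he hg ha hb
        have he0 : (0:ℝ) < e := by exact_mod_cast he.1
        have hg0 : (0:ℝ) < g := by exact_mod_cast hg.1
        have ha0 : (0:ℝ) < a := by exact_mod_cast ha.1
        have hb0 : (0:ℝ) < b := by exact_mod_cast hb.1
        push_cast
        rw [Real.log_mul (by positivity) (by positivity), Real.log_mul (by positivity) (by positivity),
          Real.log_mul (by positivity) (by positivity), Real.log_mul (by positivity) (by positivity)]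
        field_simp
        ring

theorem t_S2 : P_S2 := by
  obtain ⟨B, hB, hB2⟩ := log_sum
  refine ⟨60 * B + 6, by positivity, fun X L hX hL hXL => ?_⟩
  set N := ⌊X⌋₊ with hN
  have hX0 : 0 < X := by linarith
  have hN1 : 1 ≤ N := by rw [hN]; exact (Nat.one_le_floor_iff X).2 hX
  have hN0 : (1:ℝ) ≤ N := by exact_mod_cast hN1
  have hNX : (N:ℝ) ≤ X := Nat.floor_le hX0.le
  have hXN : X ≤ (N:ℝ) + 1 := (Nat.lt_floor_add_one X).le
  obtain ⟨hl1, hl2⟩ := log_floor X N hN1 hNX hXN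
  have hlN0 : 0 ≤ Real.log N := Real.log_nonneg hN0
  have hNL : Real.log N ≤ L := by linarith
  rw [main_id]
  set c : ℕ → ℝ := fun e => ((ArithmeticFunction.moebius e : ℤ) : ℝ) / (e:ℝ)^2 with hc
  have hL0 : 0 ≤ L := by linarith
  have hL3 : 1 ≤ L ^ 3 := one_le_pow₀ hL
  -- first step
  have s1 : |(∑ e ∈ Icc 1 N, c e * ∑ g ∈ Icc 1 (N / e), (1:ℝ) / g * UU (N / (g * e)) (L - 2 * Real.log e)) -
      (∑ e ∈ Icc 1 N, c e) * FF L (Real.log N)| ≤ 60 * B * L ^ 3 := by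
    rw [Finset.sum_mul, ← Finset.sum_sub_distrib]
    refine (Finset.abs_sum_le_sum_abs _ _).trans ?_
    calc _ ≤ ∑ e ∈ Icc 1 N, 60 * L ^ 3 * ((1:ℝ) / (e:ℝ)^2 * (1 + Real.log e)) := by
          apply Finset.sum_le_sum; intro e he
          simp only [mem_Icc] at he
          rw [← mul_sub, abs_mul]
          have h1 := inner_bd N e he.1 he.2 L hL hNL
          have h2 : |c e| ≤ (1:ℝ) / (e:ℝ)^2 := by
            rw [hc]; simp only
            rw [abs_div, abs_of_nonneg (by positivity : (0:ℝ) ≤ (e:ℝ)^2)]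
            apply div_le_div_of_nonneg_right _ (by positivity)
            exact_mod_cast ArithmeticFunction.abs_moebius_le_one
          calc _ ≤ (1:ℝ) / (e:ℝ)^2 * (60 * L ^ 3 * (1 + Real.log e)) := mul_le_mul h2 h1 (abs_nonneg _) (by positivity)
            _ = _ := by ring
      _ = 60 * L ^ 3 * ∑ e ∈ Icc 1 N, ((1:ℝ) / (e:ℝ)^2 * (1 + Real.log e)) := by rw [Finset.mul_sum]
      _ ≤ 60 * L ^ 3 * B := mul_le_mul_of_nonneg_left (hB2 N) (by positivity)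
      _ = _ := by ring
  have s2 : |(∑ e ∈ Icc 1 N, c e) * FF L (Real.log N) - 6 / Real.pi ^ 2 * FF L (Real.log N)| ≤ 4 * L := by
    rw [← sub_mul, abs_mul]
    have h1 := mob_tail N hN1
    have h2 : |FF L (Real.log N)| ≤ (7/12) * L * Real.log N ^ 3 := by
      unfold FF
      refine (abs_sub _ _).trans ?_
      rw [abs_of_nonneg (by positivity), abs_of_nonneg (by positivity)]
      have : Real.log N ^ 4 ≤ L * Real.log N ^ 3 := by
        calc Real.log N ^ 4 = Real.log N * Real.log N ^ 3 := by ring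
          _ ≤ _ := mul_le_mul_of_nonneg_right hNL (by positivity)
      linarith
    have h3 : Real.log N ^ 3 ≤ 6 * N := by
      have := Real.pow_div_factorial_le_exp (Real.log N) hlN0 3
      rw [Real.exp_log (by linarith)] at this
      norm_num [Nat.factorial] at this
      linarith
    calc _ ≤ (1 / (N:ℝ)) * ((7/12) * L * Real.log N ^ 3) := mul_le_mul h1 h2 (abs_nonneg _) (by positivity)
      _ ≤ (1 / (N:ℝ)) * ((7/12) * L * (6 * N)) := by gcongr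
      _ = (7/2) * L := by field_simp; ring
      _ ≤ 4 * L := by linarith
  have s3 : |6 / Real.pi ^ 2 * FF L (Real.log N) - 6 / Real.pi ^ 2 * FF L (Real.log X)| ≤ 2 * L ^ 3 := by
    rw [← mul_sub, abs_mul, abs_sub_comm (FF L (Real.log N))]
    have h1 := FF_lip L (Real.log N) (Real.log X) hlN0 hl1 hXL
    have h2 : |6 / Real.pi ^ 2| ≤ 1 := by
      rw [abs_of_nonneg (by positivity), div_le_one (by positivity)]
      nlinarith [Real.pi_gt_three]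
    calc _ ≤ 1 * (2 * L ^ 3 * (Real.log X - Real.log N)) := mul_le_mul h2 h1 (abs_nonneg _) (by norm_num)
      _ ≤ 1 * (2 * L ^ 3 * 1) := by gcongr; linarith
      _ = _ := by ring
  have hLL : L ≤ L ^ 3 := by nlinarith [sq_nonneg L, mul_nonneg hL0 (sub_nonneg.2 hL)]
  have e1 : (∑ e ∈ Icc 1 N, c e * ∑ g ∈ Icc 1 (N / e), (1:ℝ) / g * UU (N / (g * e)) (L - 2 * Real.log e)) -
      6 / Real.pi ^ 2 * (L * Real.log X ^ 3 / 3 - Real.log X ^ 4 / 4)
     = ((∑ e ∈ Icc 1 N, c e * ∑ g ∈ Icc 1 (N / e), (1:ℝ) / g * UU (N / (g * e)) (L - 2 * Real.log e)) -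
      (∑ e ∈ Icc 1 N, c e) * FF L (Real.log N)) +
      ((∑ e ∈ Icc 1 N, c e) * FF L (Real.log N) - 6 / Real.pi ^ 2 * FF L (Real.log N)) +
      (6 / Real.pi ^ 2 * FF L (Real.log N) - 6 / Real.pi ^ 2 * FF L (Real.log X)) := by
    unfold FF; ring
  rw [e1]
  refine (abs_add_three _ _ _).trans ?_
  nlinarith

/-- harmonic sum over an interval -/
lemma harm_Icc (a b : ℕ) (ha : 1 ≤ a) (hab : a ≤ b) :
    ∑ k ∈ Icc a b, (1:ℝ) / k ≤ 1 / a + Real.log ((b:ℝ) / a) := by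
  induction b, hab using Nat.le_induction with
  | base =>
    have : (a:ℝ) ≠ 0 := by positivity
    simp [this]
  | succ b hb ih =>
    rw [Finset.sum_Icc_succ_top (by omega)]
    have ha0 : (0:ℝ) < a := by exact_mod_cast ha
    have hb0 : (0:ℝ) < b := lt_of_lt_of_le ha0 (by exact_mod_cast hb)
    have h1 : (1:ℝ) / ((b+1 : ℕ):ℝ) ≤ Real.log (((b+1:ℕ):ℝ) / a) - Real.log ((b:ℝ) / a) := by
      rw [← Real.log_div (by positivity) (by positivity)]
      have : (((b+1:ℕ):ℝ) / a) / ((b:ℝ)/a) = ((b:ℝ)+1)/b := by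
        push_cast; field_simp
      rw [this]
      have h2 := Real.one_sub_inv_le_log_of_pos (x := ((b:ℝ)+1)/b) (by positivity)
      have h3 : (1:ℝ) / ((b+1 : ℕ):ℝ) = 1 - (((b:ℝ)+1)/b)⁻¹ := by
        push_cast; field_simp; ring
      rw [h3]; exact h2
    linarith

lemma inner_le (X Y : ℝ) (hY : 0 < Y) (hYX : Y ≤ X) (d : ℕ) (hd : 1 ≤ d) :
    ∑ m ∈ (Ioc ⌊Y⌋₊ ⌊X⌋₊) with d ∣ m, (1:ℝ) / m ≤ (1 + Real.log (X / Y)) / d := by
  have hX : 0 < X := lt_of_lt_of_le hY hYX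
  have hd0 : (0:ℝ) < d := by exact_mod_cast hd
  have hlog : 0 ≤ Real.log (X / Y) := Real.log_nonneg (by rw [le_div_iff₀ hY]; linarith)
  -- reindex
  have key : ∑ m ∈ (Ioc ⌊Y⌋₊ ⌊X⌋₊) with d ∣ m, (1:ℝ) / m
      = ∑ k ∈ Icc (⌊Y⌋₊ / d + 1) (⌊X⌋₊ / d), (1:ℝ) / ((d:ℝ) * k) := by
    symm
    apply Finset.sum_bij (fun k _ => d * k)
    · intro k hk
      simp only [mem_Icc, mem_filter, mem_Ioc] at hk ⊢
      refine ⟨⟨?_, ?_⟩, dvd_mul_right _ _⟩
      · have := Nat.lt_of_lt_of_le (Nat.lt_succ_self _) hk.1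
        exact ((Nat.div_lt_iff_lt_mul (by omega)).1 this).trans_eq (by ring)
      · calc d * k ≤ d * (⌊X⌋₊ / d) := Nat.mul_le_mul_left _ hk.2
          _ ≤ ⌊X⌋₊ := Nat.mul_div_le _ _
    · intro a _ b _ h
      exact Nat.eq_of_mul_eq_mul_left (by omega) h
    · intro m hm
      simp only [mem_filter, mem_Ioc] at hm
      obtain ⟨⟨h1, h2⟩, k, rfl⟩ := hm
      refine ⟨k, ?_, rfl⟩
      simp only [mem_Icc]
      constructor
      · have : ⌊Y⌋₊ / d < k := (Nat.div_lt_iff_lt_mul (by omega)).2 (by linarith [mul_comm d k])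
        omega
      · exact (Nat.le_div_iff_mul_le (by omega)).2 (by linarith [mul_comm d k])
    · intro k _
      push_cast; rfl
  rw [key]
  set a := ⌊Y⌋₊ / d + 1 with ha
  set b := ⌊X⌋₊ / d with hb
  have e1 : ∑ k ∈ Icc a b, (1:ℝ) / ((d:ℝ) * k) = (∑ k ∈ Icc a b, (1:ℝ) / k) / d := by
    rw [Finset.sum_div]
    apply Finset.sum_congr rfl
    intro k _
    rw [div_div, mul_comm]
  rw [e1]
  apply div_le_div_of_nonneg_right _ hd0.le
  rcases le_or_gt a b with hab | hab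
  · have ha1' : 1 ≤ a := by rw [ha]; exact Nat.le_add_left _ _
    refine (harm_Icc a b ha1' hab).trans ?_
    have ha1 : (1:ℝ) ≤ a := by rw [ha]; push_cast; linarith [Nat.cast_nonneg (α := ℝ) (⌊Y⌋₊ / d)]
    have hY' : Y < d * a := by
      have h1 : Y < ⌊Y⌋₊ + 1 := Nat.lt_floor_add_one Y
      have h2 : ⌊Y⌋₊ + 1 ≤ d * a := by
        have := Nat.lt_mul_div_succ ⌊Y⌋₊ (b := d) (by omega)
        rw [ha]; exact this
      have h3 : ((⌊Y⌋₊ + 1 : ℕ):ℝ) ≤ ((d * a : ℕ):ℝ) := by exact_mod_cast h2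
      push_cast at h3
      linarith
    have hX' : (d:ℝ) * b ≤ X := by
      have h1 : (d * b : ℕ) ≤ ⌊X⌋₊ := by rw [hb]; exact Nat.mul_div_le _ _
      have h2 : ((d * b : ℕ):ℝ) ≤ X := (Nat.le_floor_iff hX.le).1 h1
      exact_mod_cast h2
    have hb1 : (1:ℝ) ≤ b := le_trans ha1 (by exact_mod_cast hab)
    have h4 : (b:ℝ) / a ≤ X / Y := by
      rw [div_le_div_iff₀ (by linarith) hY]
      have : (b:ℝ) * Y * d ≤ X * a * d := by
        calc (b:ℝ) * Y * d = (d * b) * Y := by ring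
          _ ≤ X * (d * a) := by
            apply mul_le_mul hX' hY'.le hY.le hX.le
          _ = X * a * d := by ring
      exact le_of_mul_le_mul_right this hd0
    have h5 : Real.log ((b:ℝ)/a) ≤ Real.log (X / Y) := Real.log_le_log (by positivity) h4
    have h6 : (1:ℝ) / a ≤ 1 := by rw [div_le_one (by linarith)]; exact ha1
    linarith
  · rw [Finset.Icc_eq_empty (by omega), Finset.sum_empty]
    linarith

theorem t_S3 : P_S3 := by
  refine ⟨2, by norm_num, fun X Y L hY hYX hL hXL => ?_⟩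
  have hY0 : 0 < Y := by linarith
  have hX0 : 0 < X := by linarith
  have hlog : 0 ≤ Real.log (X / Y) := Real.log_nonneg (by rw [le_div_iff₀ hY0]; linarith)
  set A := Ioc ⌊Y⌋₊ ⌊X⌋₊ with hA
  set N := ⌊X⌋₊ with hN
  have h1 : ∀ m ∈ A, ∀ n ∈ A, gk m n = ∑ d ∈ Icc 1 N, if d ∣ m ∧ d ∣ n then (d.totient : ℝ) * (1 / m) * (1 / n) else 0 := by
    intro m hm n hn
    simp only [hA, mem_Ioc] at hm hn
    have hg : 0 < Nat.gcd m n := Nat.gcd_pos_of_pos_left _ (by omega)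
    rw [← Finset.sum_filter]
    have : (Icc 1 N).filter (fun d => d ∣ m ∧ d ∣ n) = (Nat.gcd m n).divisors := by
      ext d
      simp only [mem_filter, mem_Icc, Nat.mem_divisors, ← Nat.dvd_gcd_iff]
      constructor
      · rintro ⟨-, h⟩; exact ⟨h, hg.ne'⟩
      · rintro ⟨h, -⟩
        refine ⟨⟨Nat.pos_of_dvd_of_pos h hg, ?_⟩, h⟩
        exact (Nat.le_of_dvd (by omega) (h.trans (Nat.gcd_dvd_left _ _))).trans hm.2
    rw [this, ← Finset.sum_mul, ← Finset.sum_mul, gk]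
    have h2 : ∑ d ∈ (Nat.gcd m n).divisors, (d.totient : ℝ) = (Nat.gcd m n : ℝ) := by
      exact_mod_cast Nat.sum_totient (Nat.gcd m n)
    rw [h2]
    have : (m:ℝ) ≠ 0 := by have : 0 < m := by omega
                           positivity
    have : (n:ℝ) ≠ 0 := by have : 0 < n := by omega
                           positivity
    field_simp
  have h2 : ∑ m ∈ A, ∑ n ∈ A, gk m n = ∑ d ∈ Icc 1 N, (d.totient : ℝ) * (∑ m ∈ A with d ∣ m, (1:ℝ)/m) ^ 2 := by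
    calc ∑ m ∈ A, ∑ n ∈ A, gk m n
        = ∑ m ∈ A, ∑ n ∈ A, ∑ d ∈ Icc 1 N, (if d ∣ m ∧ d ∣ n then (d.totient : ℝ) * (1 / m) * (1 / n) else 0) :=
          Finset.sum_congr rfl fun m hm => Finset.sum_congr rfl fun n hn => h1 m hm n hn
      _ = ∑ m ∈ A, ∑ d ∈ Icc 1 N, ∑ n ∈ A, (if d ∣ m ∧ d ∣ n then (d.totient : ℝ) * (1 / m) * (1 / n) else 0) :=
          Finset.sum_congr rfl fun m hm => Finset.sum_comm
      _ = ∑ d ∈ Icc 1 N, ∑ m ∈ A, ∑ n ∈ A, (if d ∣ m ∧ d ∣ n then (d.totient : ℝ) * (1 / m) * (1 / n) else 0) :=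
          Finset.sum_comm
      _ = _ := by
          apply Finset.sum_congr rfl
          intro d _
          rw [sq, Finset.sum_filter, Finset.sum_mul, Finset.mul_sum]
          apply Finset.sum_congr rfl
          intro m _
          rw [Finset.mul_sum, Finset.mul_sum]
          apply Finset.sum_congr rfl
          intro n _
          by_cases hm : d ∣ m <;> by_cases hn : d ∣ n <;> simp [hm, hn, mul_assoc]
  rw [h2]
  have h3 : ∀ d ∈ Icc 1 N, (d.totient : ℝ) * (∑ m ∈ A with d ∣ m, (1:ℝ)/m) ^ 2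
      ≤ (1 + Real.log (X / Y)) ^ 2 * (1 / d) := by
    intro d hd
    simp only [mem_Icc] at hd
    have hd0 : (0:ℝ) < d := by exact_mod_cast hd.1
    have h4 := inner_le X Y hY0 hYX d hd.1
    have h5 : 0 ≤ ∑ m ∈ A with d ∣ m, (1:ℝ)/m := Finset.sum_nonneg fun _ _ => by positivity
    have h6 : (d.totient : ℝ) ≤ d := by exact_mod_cast Nat.totient_le d
    calc (d.totient : ℝ) * (∑ m ∈ A with d ∣ m, (1:ℝ)/m) ^ 2
        ≤ d * ((1 + Real.log (X / Y)) / d) ^ 2 := by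
          apply mul_le_mul h6 (pow_le_pow_left₀ h5 h4 2) (by positivity) hd0.le
      _ = _ := by field_simp
  refine (Finset.sum_le_sum h3).trans ?_
  rw [← Finset.mul_sum]
  rcases Nat.eq_zero_or_pos N with h0 | h0
  · rw [h0]; simp; positivity
  · have h7 := harm_Icc 1 N le_rfl h0
    have h8 : Real.log ((N:ℝ)/((1:ℕ):ℝ)) ≤ L := by
      simp only [Nat.cast_one, div_one]
      exact (Real.log_le_log (by exact_mod_cast h0) (Nat.floor_le hX0.le)).trans hXL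
    have h9 : ∑ k ∈ Icc 1 N, (1:ℝ)/k ≤ 2 * L := by
      simp only [Nat.cast_one, div_one] at h7 h8
      linarith
    calc (1 + Real.log (X / Y)) ^ 2 * ∑ k ∈ Icc 1 N, (1:ℝ)/k ≤ (1 + Real.log (X / Y)) ^ 2 * (2 * L) := by
          apply mul_le_mul_of_nonneg_left h9 (by positivity)
      _ = _ := by ring

end

end Pool.Agent.TH266.N4_S2S3
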